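import Pool.Agent.Zk85.CS.Ser
import Pool.Agent.Helper270.HNN

/-!
# Abelian normal subgroups which contain the edge groups
-/

set_option autoImplicit false

namespace Pool.Agent.Zk85.CS

open SimpleGraph
open scoped commutatorElement
open Pool.Agent.Y110.FJ (ClosedE)
open Pool.Agent.N509.TK (metab)
open Pool.Agent.R941.FJ (C_equiv C_le mem_sup_normal)

variable {C : ∀ (G : Type) [Group G], Prop}

theorem series (hC : ClosedE C) (hM : ∀ (G : Type) [Group G], derivedSeries G 2 = ⊥ → C G) (k : ℕ)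
    {G V : Type} [Group G] [MulAction G V] {T : SimpleGraph V} (hT : T.IsTree)
    (hact : ∀ (g : G) (u v : V), T.Adj u v → T.Adj (g • u) (g • v)) {N : ℕ → V → Subgroup G}
    (h : Cf T N) (hh : Hs C T k N) (he : Ed C T k N) : C G := by
  have hn : (⨆ v, N k v).Normal := (h.cmp k).normal
  exact relative hC hM k G V T hT hact N h hh (quot_class hC hT hact (h.cmp k) he.edge he.top)

theorem abelian (hC : ClosedE C) (hM : ∀ (G : Type) [Group G], derivedSeries G 2 = ⊥ → C G)
    {G V : Type} [Group G] [MulAction G V] {T : SimpleGraph V} (hT : T.IsTree)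
    (hact : ∀ (g : G) (u v : V), T.Adj u v → T.Adj (g • u) (g • v)) {N : V → Subgroup G}
    (hle : ∀ v, N v ≤ MulAction.stabilizer G v)
    (heqv : ∀ (g : G) (v : V), ∀ n ∈ N v, g * n * g⁻¹ ∈ N (g • v))
    (hab : ∀ v, ∀ x ∈ N v, ∀ y ∈ N v, x * y = y * x)
    (he : ∀ u v, T.Adj u v → MulAction.stabilizer G u ⊓ MulAction.stabilizer G v ≤ N u)
    (ht : ∀ v, CQ C (MulAction.stabilizer G v) (N v)) : C G := by
  obtain ⟨N', hN'⟩ : ∃ N' : ℕ → V → Subgroup G, N' = fun i v => if i = 0 then ⊥ else N v := ⟨_, rfl⟩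
  have h0 : ∀ v, N' 0 v = ⊥ := fun v => by rw [hN']; rfl
  have h1 : ∀ i v, N' (i + 1) v = N v := fun i v => by rw [hN']; rfl
  have hc : Cmp T N := ⟨fun v n hn => hle v hn, heqv, fun u v huv n hn hnv =>
    he v u huv.symm ⟨hnv, hle u hn⟩⟩
  have hcf : Cf T N' := by
    refine ⟨h0, fun i v => ?_, fun i => ?_⟩
    · cases i with
      | zero => rw [h0]; exact bot_le
      | succ i => rw [h1, h1]
    · cases i with
      | zero =>
        refine ⟨?_, ?_, ?_⟩
        · intro v n hn
          rw [h0, Subgroup.mem_bot] at hn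
          rw [hn, one_smul]
        · intro g v n hn
          rw [h0, Subgroup.mem_bot] at hn
          rw [h0, Subgroup.mem_bot, hn]
          group
        · intro u v _ n hn _
          rw [h0, Subgroup.mem_bot] at hn
          rw [h0, Subgroup.mem_bot, hn]
      | succ i =>
        have : N' (i + 1) = N := funext fun v => h1 i v
        rw [this]
        exact hc
  refine series hC hM 1 hT hact hcf ⟨?_, ?_⟩ ⟨?_, ?_⟩
  · intro i hi u v _ x hx _
    obtain rfl : i = 0 := by omega
    rw [h0, h1] at *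
    rw [sup_bot_eq] at hx
    have h2 : ⁅N u, N u⁆ ≤ ⊥ := by
      rw [Subgroup.commutator_le]
      intro a ha b hb
      rw [Subgroup.mem_bot, commutatorElement_eq_one_iff_mul_comm]
      exact hab u a ha b hb
    exact h2 hx
  · intro i hi v g hg
    obtain rfl : i = 0 := by omega
    rw [h0, h1]
    have hn : ((N v).subgroupOf (N v ⊔ Subgroup.zpowers g)).Normal := by
      refine ⟨fun x hx y => ?_⟩
      have hy : (y : G) ∈ MulAction.stabilizer G v := (sup_le (hle v) (by
        rw [Subgroup.zpowers_le]; exact hg) : N v ⊔ Subgroup.zpowers g ≤ _) y.2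
      have h2 := heqv (y : G) v _ hx
      rw [MulAction.mem_stabilizer_iff.1 hy] at h2
      exact h2
    have hmb : derivedSeries ↥(N v ⊔ Subgroup.zpowers g) 2 = ⊥ := by
      obtain ⟨K, hK⟩ : ∃ K, K = N v ⊔ Subgroup.zpowers g := ⟨_, rfl⟩
      rw [← hK] at hn ⊢
      refine metab ((N v).subgroupOf K) ?_ ?_
      · intro x hx y hy
        exact Subtype.ext (hab v _ hx _ hy)
      · -- the quotient is cyclic
        have hg' : g ∈ K := by
          rw [hK]
          exact (le_sup_right : Subgroup.zpowers g ≤ N v ⊔ Subgroup.zpowers g) (Subgroup.mem_zpowers g)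
        have hgen : ∀ x : K, ∃ i : ℤ, ((QuotientGroup.mk x : K ⧸ (N v).subgroupOf K)) =
            (QuotientGroup.mk (⟨g, hg'⟩ : K)) ^ i := by
          have h5 : (⊤ : Subgroup K) ≤
              (Subgroup.zpowers (QuotientGroup.mk (⟨g, hg'⟩ : K) : K ⧸ (N v).subgroupOf K)).comap
                (QuotientGroup.mk' _) := by
            have h6 : (⊤ : Subgroup K) = (N v).subgroupOf K ⊔ Subgroup.zpowers ⟨g, hg'⟩ := by
              apply Subgroup.map_injective K.subtype_injective
              rw [Subgroup.map_sup, Subgroup.map_subgroupOf_eq_of_le (by rw [hK]; exact le_sup_left),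
                MonoidHom.map_zpowers, ← MonoidHom.range_eq_map, Subgroup.range_subtype]
              exact hK
            rw [h6]
            refine sup_le ?_ ?_
            · intro x hx
              rw [Subgroup.mem_comap, QuotientGroup.mk'_apply, (QuotientGroup.eq_one_iff x).2 hx]
              exact one_mem _
            · rw [Subgroup.zpowers_le]
              exact Subgroup.mem_zpowers _
          intro x
          obtain ⟨i, hi⟩ := h5 (Subgroup.mem_top x)
          exact ⟨i, hi.symm⟩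
        intro x y
        rw [← QuotientGroup.eq_one_iff]
        obtain ⟨i, hi⟩ := hgen x
        obtain ⟨j, hj⟩ := hgen y
        have h7 : ((⁅x, y⁆ : K) : K ⧸ (N v).subgroupOf K) =
          ⁅(x : K ⧸ (N v).subgroupOf K), (y : K ⧸ (N v).subgroupOf K)⁆ := rfl
        rw [h7, hi, hj, commutatorElement_eq_one_iff_mul_comm, ← zpow_add, ← zpow_add, add_comm]
    refine ⟨_, inferInstance, MonoidHom.id _, hM _ hmb, fun x => ?_⟩
    rw [Subgroup.mem_bot]
    exact ⟨fun h => congrArg Subtype.val h, fun h => Subtype.ext h⟩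
  · intro u v huv g hgu hgv
    rw [h1]
    exact he u v huv ⟨hgu, hgv⟩
  · intro v
    rw [h1]
    exact ht v

section coset

variable {G : Type} [Group G] {K : Subgroup G} (N : Subgroup G)

/-- the conjugates of a normal subgroup `N` of `K` at the cosets of `K` -/
noncomputable def fam (K : Subgroup G) (v : G ⧸ K) : Subgroup G := N.map (MulAut.conj v.out).toMonoidHom

variable {N}

theorem mem_fam (hN : ∀ n ∈ N, ∀ k ∈ K, k * n * k⁻¹ ∈ N) {g x : G} :
    x ∈ fam N K (QuotientGroup.mk g) ↔ g⁻¹ * x * g ∈ N := by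
  obtain ⟨k, hk⟩ := QuotientGroup.mk_out_eq_mul K g
  constructor
  · rintro ⟨n, hn, rfl⟩
    have h1 := hN n hn k k.2
    have h2 : g⁻¹ * ((QuotientGroup.mk g : G ⧸ K).out * n * (QuotientGroup.mk g : G ⧸ K).out⁻¹) * g =
        k * n * (k : G)⁻¹ := by
      rw [hk]
      group
    show g⁻¹ * ((QuotientGroup.mk g : G ⧸ K).out * n * (QuotientGroup.mk g : G ⧸ K).out⁻¹) * g ∈ N
    rwa [h2]
  · intro h
    have h1 := hN _ h (k : G)⁻¹ (inv_mem k.2)
    refine ⟨_, h1, ?_⟩
    show (QuotientGroup.mk g : G ⧸ K).out * ((k : G)⁻¹ * (g⁻¹ * x * g) * (k : G)⁻¹⁻¹) *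
      (QuotientGroup.mk g : G ⧸ K).out⁻¹ = x
    rw [hk]
    group

theorem CQ_fam (hN : ∀ n ∈ N, ∀ k ∈ K, k * n * k⁻¹ ∈ N) (h : CQ C K N) (v : G ⧸ K) :
    CQ C (MulAction.stabilizer G v) (fam N K v) := by
  obtain ⟨g, rfl⟩ := QuotientGroup.mk_surjective v
  obtain ⟨P, _, φ, hP, hφ⟩ := h
  have hmem : ∀ x : MulAction.stabilizer G (QuotientGroup.mk g : G ⧸ K), g⁻¹ * (x : G) * g ∈ K := by
    rintro ⟨x, hx⟩
    have h1 : (QuotientGroup.mk (x * g) : G ⧸ K) = QuotientGroup.mk g := hx
    rw [eq_comm, QuotientGroup.eq, ← mul_assoc] at h1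
    exact h1
  let c : MulAction.stabilizer G (QuotientGroup.mk g : G ⧸ K) →* K :=
    { toFun := fun x => ⟨g⁻¹ * (x : G) * g, hmem x⟩
      map_one' := Subtype.ext (by
        show g⁻¹ * 1 * g = 1
        group)
      map_mul' := fun x y => Subtype.ext (by
        show g⁻¹ * ((x : G) * (y : G)) * g = g⁻¹ * (x : G) * g * (g⁻¹ * (y : G) * g)
        group) }
  refine ⟨P, inferInstance, φ.comp c, hP, fun x => ?_⟩
  rw [mem_fam hN]
  exact hφ (c x)

end coset

open Pool.Agent.Helper270.HNN HNNExtension in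
/-- **HNN extensions** -/
theorem hnn (hC : ClosedE C) (hM : ∀ (G : Type) [Group G], derivedSeries G 2 = ⊥ → C G)
    (G : Type) [Group G] (N A B : Subgroup G) [N.Normal] (hab : ∀ x ∈ N, ∀ y ∈ N, x * y = y * x)
    (hA : A ≤ N) (hB : B ≤ N) (φ : A ≃* B) (hQ : C (G ⧸ N)) : C (HNNExtension G A B φ) := by
  have hn : N.Normal := inferInstance
  obtain ⟨N1, hN1⟩ : ∃ N1 : Subgroup (HNNExtension G A B φ), N1 = N.map of := ⟨_, rfl⟩
  have hmem : ∀ s : G, (of s : HNNExtension G A B φ) ∈ N1 ↔ s ∈ N := by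
    intro s
    rw [hN1]
    constructor
    · rintro ⟨n, hn', h⟩
      rwa [← HNNExtension.of_injective φ h]
    · intro h
      exact ⟨s, h, rfl⟩
  have hK : ∀ n ∈ N1, ∀ k ∈ (of.range : Subgroup (HNNExtension G A B φ)), k * n * k⁻¹ ∈ N1 := by
    rintro n hn' _ ⟨k, rfl⟩
    rw [hN1] at hn'
    obtain ⟨m, hm, rfl⟩ := hn'
    rw [← map_inv, ← map_mul, ← map_mul, hmem]
    exact hn.conj_mem m hm k
  refine abelian hC hM (V := Vert φ) (T := graph φ) isTree treeAct.adj
    (N := fam N1 (of.range : Subgroup (HNNExtension G A B φ))) ?_ ?_ ?_ ?_ ?_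
  · intro v x hx
    obtain ⟨g, rfl⟩ := QuotientGroup.mk_surjective v
    rw [mem_fam hK, hN1] at hx
    obtain ⟨m, hm, h⟩ := hx
    show (QuotientGroup.mk (x * g) : Vert φ) = QuotientGroup.mk g
    rw [eq_comm, QuotientGroup.eq]
    exact ⟨m, by rw [h]; group⟩
  · intro g v n hn'
    obtain ⟨h, rfl⟩ := QuotientGroup.mk_surjective v
    rw [mem_fam hK] at hn'
    show g * n * g⁻¹ ∈ fam N1 _ (QuotientGroup.mk (g * h))
    rw [mem_fam hK]
    have : (g * h)⁻¹ * (g * n * g⁻¹) * (g * h) = h⁻¹ * n * h := by group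
    rwa [this]
  · intro v x hx y hy
    obtain ⟨g, rfl⟩ := QuotientGroup.mk_surjective v
    rw [mem_fam hK, hN1] at hx hy
    obtain ⟨a, ha, h1⟩ := hx
    obtain ⟨b, hb, h2⟩ := hy
    have hx' : x = g * of a * g⁻¹ := by rw [h1]; group
    have hy' : y = g * of b * g⁻¹ := by rw [h2]; group
    have h3 : (of a : HNNExtension G A B φ) * of b = of b * of a := by
      rw [← map_mul, ← map_mul, hab a ha b hb]
    rw [hx', hy']
    have e1 : g * of a * g⁻¹ * (g * of b * g⁻¹) = g * (of a * of b) * g⁻¹ := by group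
    have e2 : g * of b * g⁻¹ * (g * of a * g⁻¹) = g * (of b * of a) * g⁻¹ := by group
    rw [e1, e2, h3]
  · -- edges
    have key : ∀ (g x : HNNExtension G A B φ), x • (vt g : Vert φ) = vt g →
        x • (vt (g * t) : Vert φ) = vt (g * t) → ∃ s ∈ B, x = g * of s * g⁻¹ := by
      intro g x h1 h2
      rw [smul_vt, eq_comm, vt_eq_iff] at h1
      obtain ⟨s, hs⟩ := h1
      have hx : x = g * of s * g⁻¹ := by rw [hs]; group
      refine ⟨s, ?_, hx⟩
      have h3 : (of s : HNNExtension G A B φ) • (vt (of 1 * t) : Vert φ) = vt (of 1 * t) := by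
        rw [smul_vt, map_one, one_mul]
        rw [smul_vt] at h2
        obtain ⟨y, hy⟩ := vt_eq_iff.1 h2
        refine vt_eq_iff.2 ⟨y, ?_⟩
        have h4 : x * (g * t) * of y = g * (of s * t * of y) := by rw [hx]; group
        rw [h4] at hy
        exact mul_left_cancel hy
      have h5 := (fix_t (φ := φ) 1 s).1 h3
      rwa [inv_one, one_mul, mul_one] at h5
    rintro u v huv x ⟨hxu, hxv⟩
    obtain ⟨g, ⟨rfl, rfl⟩ | ⟨rfl, rfl⟩⟩ := adj_iff.1 huv
    · obtain ⟨s, hs, rfl⟩ := key g x hxu hxv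
      rw [mem_fam hK]
      have : g⁻¹ * (g * of s * g⁻¹) * g = of s := by group
      rw [this, hmem]
      exact hB hs
    · obtain ⟨s, hs, rfl⟩ := key g x hxv hxu
      rw [mem_fam hK]
      have : (g * t)⁻¹ * (g * of s * g⁻¹) * (g * t) = t⁻¹ * of s * t := by group
      rw [this]
      obtain ⟨y, hy⟩ := (conj_t (φ := φ) s).2 hs
      rw [hy, hmem]
      have h6 : t⁻¹ * of s * t = (of (φ.symm ⟨s, hs⟩ : G) : HNNExtension G A B φ) :=
        (equiv_symm_eq_conj (⟨s, hs⟩ : B)).symm
      rw [hy] at h6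
      rw [HNNExtension.of_injective φ h6]
      exact hA (φ.symm ⟨s, hs⟩).2
  · refine CQ_fam hK ?_
    obtain ⟨e, he⟩ : ∃ e : G ≃* (of.range : Subgroup (HNNExtension G A B φ)),
        e = MonoidHom.ofInjective (HNNExtension.of_injective φ) := ⟨_, rfl⟩
    refine ⟨G ⧸ N, inferInstance, (QuotientGroup.mk' N).comp e.symm.toMonoidHom, hQ, fun x => ?_⟩
    obtain ⟨s, rfl⟩ := e.surjective x
    have h1 : ((QuotientGroup.mk' N).comp e.symm.toMonoidHom) (e s) = QuotientGroup.mk' N s := by
      show QuotientGroup.mk' N (e.symm (e s)) = _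
      rw [MulEquiv.symm_apply_apply]
    have h2 : ((e s : (of.range : Subgroup (HNNExtension G A B φ))) : HNNExtension G A B φ) = of s := by
      rw [he]
      rfl
    rw [h1, h2, hmem]
    exact QuotientGroup.eq_one_iff s

end Pool.Agent.Zk85.CS
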