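import Pool.Agent.Zk85.CS.Cyc
import Pool.Agent.Helper705_SA.Amalg

/-!
# Amalgams along isolated subgroups
-/

set_option autoImplicit false

namespace Pool.Agent.Zk85.CS

open SimpleGraph
open Subgroup
open scoped Pointwise
open Subgroup.Commensurable (commensurator)
open Pool.Agent.Y110.FJ (ClosedE)
open Pool.Agent.N509.TK
open Pool.Agent.N509.TX (AcylF)
open Pool.Agent.N431.CE
open Pool.Agent.R941.FJ (C_equiv C_le)
open Pool.Agent.Helper705_SA

variable {C : ∀ (G : Type) [Group G], Prop} {G : Type} [Group G]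

theorem mem_conj {E : Subgroup G} {g x : G} :
    x ∈ ConjAct.toConjAct g • E ↔ g⁻¹ * x * g ∈ E := by
  rw [Subgroup.mem_pointwise_smul_iff_inv_smul_mem, ← ConjAct.toConjAct_inv,
    ConjAct.toConjAct_smul, inv_inv]

theorem comm_conj {E : Subgroup G} {g x : G} :
    x ∈ commensurator (ConjAct.toConjAct g • E) ↔ g⁻¹ * x * g ∈ commensurator E := by
  rw [Commensurable.commensurator_mem_iff, Commensurable.commensurator_mem_iff,
    Commensurable.commensurable_conj (ConjAct.toConjAct g⁻¹)]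
  have h2 : ConjAct.toConjAct g⁻¹ • ConjAct.toConjAct g • E = E := by
    rw [smul_smul, ← map_mul, inv_mul_cancel, map_one, one_smul]
  have h3 : ConjAct.toConjAct g⁻¹ • ConjAct.toConjAct x • ConjAct.toConjAct g • E =
      ConjAct.toConjAct (g⁻¹ * x * g) • E := by
    rw [smul_smul, smul_smul, ← map_mul, ← map_mul]
  rw [h2, h3]

theorem CQ.conj {H K H' K' : Subgroup G} (h : CQ C H K) (g : G)
    (hH : ∀ x ∈ H', g⁻¹ * x * g ∈ H) (hK : ∀ x ∈ H', x ∈ K' ↔ g⁻¹ * x * g ∈ K) : CQ C H' K' := by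
  obtain ⟨P, _, φ, hP, hφ⟩ := h
  let c : ↥H' →* ↥H :=
    { toFun := fun x => ⟨g⁻¹ * (x : G) * g, hH x x.2⟩
      map_one' := Subtype.ext (by
        show g⁻¹ * 1 * g = 1
        group)
      map_mul' := fun x y => Subtype.ext (by
        show g⁻¹ * ((x : G) * (y : G)) * g = g⁻¹ * (x : G) * g * (g⁻¹ * (y : G) * g)
        group) }
  exact ⟨P, inferInstance, φ.comp c, hP, fun x => (hφ (c x)).trans (hK x x.2).symm⟩

theorem CQ.normal {H K : Subgroup G} (h : CQ C H K) (hK : K ≤ H) {g n : G} (hg : g ∈ H)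
    (hn : n ∈ K) : g * n * g⁻¹ ∈ K := by
  obtain ⟨P, _, φ, hP, hφ⟩ := h
  have h2 : φ ⟨n, hK hn⟩ = 1 := (hφ _).2 hn
  have h3 : φ (⟨g, hg⟩ * ⟨n, hK hn⟩ * ⟨g, hg⟩⁻¹) = 1 := by
    rw [map_mul, map_mul, h2, mul_one, ← map_mul, mul_inv_cancel, map_one]
  exact (hφ _).1 h3

/-- the condition on a factor `A` of an amalgam along `E` -/
def AmC (C : ∀ (G : Type) [Group G], Prop) {G : Type} [Group G] (A E : Subgroup G) : Prop :=
  ∃ N ≤ A ⊓ commensurator E, CQ C (A ⊓ commensurator E) N ∧ E ≤ N ∧ E ⊓ ⁅N, N⁆ = ⊥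

theorem side {A E : Subgroup G} (h : AmC C A E) (k : G) :
    ∃ N ≤ (ConjAct.toConjAct k • A) ⊓ commensurator (ConjAct.toConjAct k • E),
      CQ C ((ConjAct.toConjAct k • A) ⊓ commensurator (ConjAct.toConjAct k • E)) N ∧
      ∀ k', k⁻¹ * k' ∈ A → Commensurable (ConjAct.toConjAct k • E) (ConjAct.toConjAct k' • E) →
        ConjAct.toConjAct k' • E ≤ N ∧ (ConjAct.toConjAct k' • E) ⊓ ⁅N, N⁆ = ⊥ := by
  obtain ⟨N, hN, hQ, hEN, hd⟩ := h
  refine ⟨ConjAct.toConjAct k • N, ?_, ?_, ?_⟩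
  · intro x hx
    rw [mem_conj] at hx
    have h1 := hN hx
    exact ⟨mem_conj.2 h1.1, comm_conj.2 h1.2⟩
  · exact hQ.conj k (fun x hx => ⟨mem_conj.1 hx.1, comm_conj.1 hx.2⟩) fun x _ => mem_conj
  · intro k' hk' hcom
    obtain ⟨a, ha⟩ : ∃ a, a = k⁻¹ * k' := ⟨_, rfl⟩
    have hk : k' = k * a := by rw [ha, mul_inv_cancel_left]
    have haC : a ∈ commensurator E := by
      rw [Commensurable.commensurator_mem_iff]
      have h1 := (Commensurable.commensurable_conj (ConjAct.toConjAct k⁻¹)).1 hcom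
      rw [smul_smul, smul_smul, ← map_mul, ← map_mul, inv_mul_cancel, map_one, one_smul, ← ha] at h1
      exact h1.symm
    have haA : a ∈ A ⊓ commensurator E := ⟨by rw [ha]; exact hk', haC⟩
    have haN : ∀ x ∈ N, a * x * a⁻¹ ∈ N := fun x hx => hQ.normal hN haA hx
    have haN' : ∀ x ∈ N, a⁻¹ * x * a⁻¹⁻¹ ∈ N := fun x hx => hQ.normal hN (inv_mem haA) hx
    have e1 : ∀ x, k'⁻¹ * x * k' = a⁻¹ * (k⁻¹ * x * k) * a := by
      intro x
      rw [hk]
      group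
    refine ⟨?_, ?_⟩
    · intro x hx
      rw [mem_conj, e1] at hx
      rw [mem_conj]
      have h1 := haN _ (hEN hx)
      have h2 : a * (a⁻¹ * (k⁻¹ * x * k) * a) * a⁻¹ = k⁻¹ * x * k := by group
      rwa [h2] at h1
    · rw [eq_bot_iff]
      rintro x ⟨hx, hx'⟩
      have hx : x ∈ ConjAct.toConjAct k' • E := hx
      rw [mem_conj, e1] at hx
      have h1 : (ConjAct.toConjAct k • N).map (MulAut.conj k⁻¹).toMonoidHom ≤ N := by
        rintro _ ⟨y, hy, rfl⟩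
        have hy : y ∈ ConjAct.toConjAct k • N := hy
        rw [mem_conj] at hy
        show k⁻¹ * y * k⁻¹⁻¹ ∈ N
        rwa [inv_inv]
      have h2 : (⁅ConjAct.toConjAct k • N, ConjAct.toConjAct k • N⁆).map
          (MulAut.conj k⁻¹).toMonoidHom ≤ ⁅N, N⁆ := by
        rw [Subgroup.map_commutator]
        exact Subgroup.commutator_mono h1 h1
      have h3 := h2 ⟨x, hx', rfl⟩
      have h4 : (MulAut.conj k⁻¹).toMonoidHom x = k⁻¹ * x * k := by
        show k⁻¹ * x * k⁻¹⁻¹ = _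
        rw [inv_inv]
      rw [h4] at h3
      have h5 := conj_comm_mem haN' h3
      rw [inv_inv] at h5
      have h6 : a⁻¹ * (k⁻¹ * x * k) * a ∈ E ⊓ ⁅N, N⁆ := ⟨hx, h5⟩
      rw [hd, Subgroup.mem_bot] at h6
      rw [Subgroup.mem_bot]
      have h7 : x = (k * a) * (a⁻¹ * (k⁻¹ * x * k) * a) * (k * a)⁻¹ := by group
      rw [h7, h6]
      group

theorem side_int {A E : Subgroup G} {n : ℕ} (hinf : Infinite E)
    (hA : ∀ a ∈ A, a ∉ commensurator E → ∀ F : Finset G, (∀ x ∈ F, x ∈ E ∧ a⁻¹ * x * a ∈ E) →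
      F.card ≤ n) (k k' : G) (hk : k⁻¹ * k' ∈ A) :
    (Infinite ↥(ConjAct.toConjAct k • E) ∧ Infinite ↥(ConjAct.toConjAct k' • E) ∧
      Commensurable (ConjAct.toConjAct k • E) (ConjAct.toConjAct k' • E)) ∨
    ∀ F : Finset G, (∀ g ∈ F, g ∈ ConjAct.toConjAct k • E ∧ g ∈ ConjAct.toConjAct k' • E) →
      F.card ≤ n := by
  classical
  by_cases h : k⁻¹ * k' ∈ commensurator E
  · refine Or.inl ⟨Infinite.of_injective _ (Subgroup.equivSMul (ConjAct.toConjAct k) E).injective,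
      Infinite.of_injective _ (Subgroup.equivSMul (ConjAct.toConjAct k') E).injective, ?_⟩
    rw [Commensurable.commensurator_mem_iff] at h
    have h1 := (Commensurable.commensurable_conj (ConjAct.toConjAct k)).1 h
    rw [smul_smul, ← map_mul, mul_inv_cancel_left] at h1
    exact h1.symm
  · right
    intro F hF
    have h1 := hA _ hk h (F.map ⟨fun x => k⁻¹ * x * k, fun x y hxy =>
      mul_left_cancel (mul_right_cancel hxy)⟩) (by
        intro x hx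
        rw [Finset.mem_map] at hx
        obtain ⟨y, hy, rfl⟩ := hx
        have h2 := hF y hy
        rw [mem_conj, mem_conj] at h2
        refine ⟨h2.1, ?_⟩
        show (k⁻¹ * k')⁻¹ * (k⁻¹ * y * k) * (k⁻¹ * k') ∈ E
        have h3 : (k⁻¹ * k')⁻¹ * (k⁻¹ * y * k) * (k⁻¹ * k') = k'⁻¹ * y * k' := by group
        rw [h3]
        exact h2.2)
    rwa [Finset.card_map] at h1

/-- **amalgams along isolated subgroups** -/
theorem amalgam_isol (hC : ClosedE C) (hM : ∀ (G : Type) [Group G], derivedSeries G 2 = ⊥ → C G)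
    (hA : AcylF C) (A B : Subgroup G) (h : IsAmalgam A B) (hCA : C A) (hCB : C B)
    (hinf : Infinite ↥(A ⊓ B)) (n : ℕ)
    (hiA : ∀ a ∈ A, a ∉ commensurator (A ⊓ B) → ∀ F : Finset G,
      (∀ x ∈ F, x ∈ A ⊓ B ∧ a⁻¹ * x * a ∈ A ⊓ B) → F.card ≤ n)
    (hiB : ∀ b ∈ B, b ∉ commensurator (A ⊓ B) → ∀ F : Finset G,
      (∀ x ∈ F, x ∈ A ⊓ B ∧ b⁻¹ * x * b ∈ A ⊓ B) → F.card ≤ n)
    (h1 : AmC C A (A ⊓ B)) (h2 : AmC C B (A ⊓ B)) : C G := by
  have hstA : ∀ g x : G, x • (Sum.inl (QuotientGroup.mk g) : (G ⧸ A) ⊕ (G ⧸ B)) =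
      Sum.inl (QuotientGroup.mk g) ↔ g⁻¹ * x * g ∈ A := by
    intro g x
    rw [Sum.smul_inl, Sum.inl_injective.eq_iff]
    change (QuotientGroup.mk (x * g) : G ⧸ A) = QuotientGroup.mk g ↔ _
    rw [eq_comm, QuotientGroup.eq, ← mul_assoc]
  have hstB : ∀ g x : G, x • (Sum.inr (QuotientGroup.mk g) : (G ⧸ A) ⊕ (G ⧸ B)) =
      Sum.inr (QuotientGroup.mk g) ↔ g⁻¹ * x * g ∈ B := by
    intro g x
    rw [Sum.smul_inr, Sum.inr_injective.eq_iff]
    change (QuotientGroup.mk (x * g) : G ⧸ B) = QuotientGroup.mk g ↔ _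
    rw [eq_comm, QuotientGroup.eq, ← mul_assoc]
  have hsA : ∀ g : G, MulAction.stabilizer G (Sum.inl (QuotientGroup.mk g) : (G ⧸ A) ⊕ (G ⧸ B)) =
      ConjAct.toConjAct g • A := fun g => Subgroup.ext fun x => (hstA g x).trans mem_conj.symm
  have hsB : ∀ g : G, MulAction.stabilizer G (Sum.inr (QuotientGroup.mk g) : (G ⧸ A) ⊕ (G ⧸ B)) =
      ConjAct.toConjAct g • B := fun g => Subgroup.ext fun x => (hstB g x).trans mem_conj.symm
  have hEs : ∀ g : G, Es G (Sum.inl (QuotientGroup.mk g) : (G ⧸ A) ⊕ (G ⧸ B))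
      (Sum.inr (QuotientGroup.mk g)) = ConjAct.toConjAct g • (A ⊓ B) := by
    intro g
    ext x
    rw [mem_Es, mem_conj, hstA, hstB]
    exact Iff.rfl
  have hEs' : ∀ g : G, Es G (Sum.inr (QuotientGroup.mk g) : (G ⧸ A) ⊕ (G ⧸ B))
      (Sum.inl (QuotientGroup.mk g)) = ConjAct.toConjAct g • (A ⊓ B) := by
    intro g
    rw [Es_comm, hEs]
  have hst : ∀ (D : Subgroup G) (g : G), C D → C ↥(ConjAct.toConjAct g • D) := fun D g hD =>
    C_equiv hC.base (Subgroup.equivSMul (ConjAct.toConjAct g) D).symm hD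
  -- the neighbours
  have hnA : ∀ (g : G) (u : (G ⧸ A) ⊕ (G ⧸ B)), (cosetGraph A B).Adj
      (Sum.inl (QuotientGroup.mk g)) u → ∃ k, g⁻¹ * k ∈ A ∧ u = Sum.inr (QuotientGroup.mk k) ∧
        (Sum.inl (QuotientGroup.mk g) : (G ⧸ A) ⊕ (G ⧸ B)) = Sum.inl (QuotientGroup.mk k) := by
    rintro g u ⟨k, ⟨h3, h4⟩ | ⟨-, h4⟩⟩
    · exact ⟨k, QuotientGroup.eq.1 (Sum.inl_injective h3), h4, h3⟩
    · exact absurd h4 (by simp)
  have hnB : ∀ (g : G) (u : (G ⧸ A) ⊕ (G ⧸ B)), (cosetGraph A B).Adj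
      (Sum.inr (QuotientGroup.mk g)) u → ∃ k, g⁻¹ * k ∈ B ∧ u = Sum.inl (QuotientGroup.mk k) ∧
        (Sum.inr (QuotientGroup.mk g) : (G ⧸ A) ⊕ (G ⧸ B)) = Sum.inr (QuotientGroup.mk k) := by
    rintro g u ⟨k, ⟨h3, -⟩ | ⟨h3, h4⟩⟩
    · exact absurd h3 (by simp)
    · exact ⟨k, QuotientGroup.eq.1 (Sum.inr_injective h4), h3, h4⟩
  refine isol hC hM hA (V := (G ⧸ A) ⊕ (G ⧸ B)) (T := cosetGraph A B) (cosetGraph_isTree A B h)
    ?_ ?_ n ?_ ?_
  · rintro g v w ⟨k, ⟨rfl, rfl⟩ | ⟨rfl, rfl⟩⟩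
    · exact ⟨g * k, Or.inl ⟨rfl, rfl⟩⟩
    · exact ⟨g * k, Or.inr ⟨rfl, rfl⟩⟩
  · rintro (v | v)
    · obtain ⟨g, rfl⟩ := QuotientGroup.mk_surjective v
      rw [hsA]
      exact hst A g hCA
    · obtain ⟨g, rfl⟩ := QuotientGroup.mk_surjective v
      rw [hsB]
      exact hst B g hCB
  · rintro (v | v) a b ha hb _
    · obtain ⟨g, rfl⟩ := QuotientGroup.mk_surjective v
      obtain ⟨k, hk, rfl, hk'⟩ := hnA g a ha
      obtain ⟨l, hl, rfl, hl'⟩ := hnA g b hb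
      have e1 : Es G (Sum.inl (QuotientGroup.mk g) : (G ⧸ A) ⊕ (G ⧸ B))
          (Sum.inr (QuotientGroup.mk k)) = ConjAct.toConjAct k • (A ⊓ B) := by rw [hk', hEs]
      have e2 : Es G (Sum.inl (QuotientGroup.mk g) : (G ⧸ A) ⊕ (G ⧸ B))
          (Sum.inr (QuotientGroup.mk l)) = ConjAct.toConjAct l • (A ⊓ B) := by rw [hl', hEs]
      rw [e1, e2]
      refine side_int hinf hiA k l ?_
      have : k⁻¹ * l = (g⁻¹ * k)⁻¹ * (g⁻¹ * l) := by group
      rw [this]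
      exact mul_mem (inv_mem hk) hl
    · obtain ⟨g, rfl⟩ := QuotientGroup.mk_surjective v
      obtain ⟨k, hk, rfl, hk'⟩ := hnB g a ha
      obtain ⟨l, hl, rfl, hl'⟩ := hnB g b hb
      have e1 : Es G (Sum.inr (QuotientGroup.mk g) : (G ⧸ A) ⊕ (G ⧸ B))
          (Sum.inl (QuotientGroup.mk k)) = ConjAct.toConjAct k • (A ⊓ B) := by rw [hk', hEs']
      have e2 : Es G (Sum.inr (QuotientGroup.mk g) : (G ⧸ A) ⊕ (G ⧸ B))
          (Sum.inl (QuotientGroup.mk l)) = ConjAct.toConjAct l • (A ⊓ B) := by rw [hl', hEs']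
      rw [e1, e2]
      refine side_int hinf hiB k l ?_
      have : k⁻¹ * l = (g⁻¹ * k)⁻¹ * (g⁻¹ * l) := by group
      rw [this]
      exact mul_mem (inv_mem hk) hl
  · rintro v u hvu _
    right
    have hvu' := hvu
    obtain ⟨g, ⟨rfl, rfl⟩ | ⟨rfl, rfl⟩⟩ := hvu'
    · obtain ⟨N, hN, hQ, he⟩ := side h1 g
      rw [← hsA g, ← hEs g] at hN hQ
      refine NC.of hC hN hQ fun u' hu' hcom => ?_
      obtain ⟨k, hk, rfl, hk'⟩ := hnA g u' hu'
      have e1 : Es G (Sum.inl (QuotientGroup.mk g) : (G ⧸ A) ⊕ (G ⧸ B))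
          (Sum.inr (QuotientGroup.mk k)) = ConjAct.toConjAct k • (A ⊓ B) := by rw [hk', hEs]
      rw [e1] at hcom ⊢
      rw [hEs] at hcom
      exact he k hk hcom
    · obtain ⟨N, hN, hQ, he⟩ := side h2 g
      rw [← hsB g, ← hEs' g] at hN hQ
      refine NC.of hC hN hQ fun u' hu' hcom => ?_
      obtain ⟨k, hk, rfl, hk'⟩ := hnB g u' hu'
      have e1 : Es G (Sum.inr (QuotientGroup.mk g) : (G ⧸ A) ⊕ (G ⧸ B))
          (Sum.inl (QuotientGroup.mk k)) = ConjAct.toConjAct k • (A ⊓ B) := by rw [hk', hEs']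
      rw [e1] at hcom ⊢
      rw [hEs'] at hcom
      exact he k hk hcom

end Pool.Agent.Zk85.CS
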