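import Pool.Agent.Zk85.CS.Der
import Pool.Agent.Helper705_SA.Amalg

/-!
# Amalgams
-/

set_option autoImplicit false

namespace Pool.Agent.Zk85.CS

open SimpleGraph
open Pool.Agent.Y110.FJ (ClosedE)
open Pool.Agent.Helper705_SA

variable {C : ∀ (G : Type) [Group G], Prop}

theorem mem_stab_coset {G : Type} [Group G] {A : Subgroup G} {g x : G} :
    x • (QuotientGroup.mk g : G ⧸ A) = QuotientGroup.mk g ↔ g⁻¹ * x * g ∈ A := by
  change (QuotientGroup.mk (x * g) : G ⧸ A) = QuotientGroup.mk g ↔ _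
  rw [eq_comm, QuotientGroup.eq, ← mul_assoc]

/-- **amalgamated products** -/
theorem amalgam (hC : ClosedE C) (hM : ∀ (G : Type) [Group G], derivedSeries G 2 = ⊥ → C G)
    {G : Type} [Group G] (A B : Subgroup G) (h : IsAmalgam A B) {N M : Subgroup G}
    (hN : N ≤ A) (hM' : M ≤ B)
    (hNA : ∀ n ∈ N, ∀ k ∈ A, k * n * k⁻¹ ∈ N) (hMB : ∀ n ∈ M, ∀ k ∈ B, k * n * k⁻¹ ∈ M)
    (hNa : ∀ x ∈ N, ∀ y ∈ N, x * y = y * x) (hMa : ∀ x ∈ M, ∀ y ∈ M, x * y = y * x)
    (h1 : A ⊓ B ≤ N) (h2 : A ⊓ B ≤ M) (hQA : CQ C A N) (hQB : CQ C B M) : C G := by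
  have hcomm : ∀ (L : Subgroup G), (∀ x ∈ L, ∀ y ∈ L, x * y = y * x) → ∀ g x y : G,
      g⁻¹ * x * g ∈ L → g⁻¹ * y * g ∈ L → x * y = y * x := by
    intro L hL g x y hx hy
    have h1 := hL _ hx _ hy
    have e1 : x * y = g * (g⁻¹ * x * g * (g⁻¹ * y * g)) * g⁻¹ := by group
    have e2 : y * x = g * (g⁻¹ * y * g * (g⁻¹ * x * g)) * g⁻¹ := by group
    rw [e1, e2, h1]
  refine abelian hC hM (V := (G ⧸ A) ⊕ (G ⧸ B)) (T := cosetGraph A B) (cosetGraph_isTree A B h) ?_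
    (N := Sum.elim (fam N A) (fam M B)) ?_ ?_ ?_ ?_ ?_
  · rintro g v w ⟨k, ⟨rfl, rfl⟩ | ⟨rfl, rfl⟩⟩
    · exact ⟨g * k, Or.inl ⟨rfl, rfl⟩⟩
    · exact ⟨g * k, Or.inr ⟨rfl, rfl⟩⟩
  · rintro (v | v) x hx
    · obtain ⟨g, rfl⟩ := QuotientGroup.mk_surjective v
      have hx' : x ∈ fam N A (QuotientGroup.mk g) := hx
      rw [mem_fam hNA] at hx'
      show x • (Sum.inl (QuotientGroup.mk g) : (G ⧸ A) ⊕ (G ⧸ B)) = Sum.inl (QuotientGroup.mk g)
      rw [Sum.smul_inl, mem_stab_coset.2 (hN hx')]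
    · obtain ⟨g, rfl⟩ := QuotientGroup.mk_surjective v
      have hx' : x ∈ fam M B (QuotientGroup.mk g) := hx
      rw [mem_fam hMB] at hx'
      show x • (Sum.inr (QuotientGroup.mk g) : (G ⧸ A) ⊕ (G ⧸ B)) = Sum.inr (QuotientGroup.mk g)
      rw [Sum.smul_inr, mem_stab_coset.2 (hM' hx')]
  · rintro g (v | v) x hx
    · obtain ⟨k, rfl⟩ := QuotientGroup.mk_surjective v
      have hx' : x ∈ fam N A (QuotientGroup.mk k) := hx
      rw [mem_fam hNA] at hx'
      show g * x * g⁻¹ ∈ fam N A (QuotientGroup.mk (g * k))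
      rw [mem_fam hNA]
      have : (g * k)⁻¹ * (g * x * g⁻¹) * (g * k) = k⁻¹ * x * k := by group
      rwa [this]
    · obtain ⟨k, rfl⟩ := QuotientGroup.mk_surjective v
      have hx' : x ∈ fam M B (QuotientGroup.mk k) := hx
      rw [mem_fam hMB] at hx'
      show g * x * g⁻¹ ∈ fam M B (QuotientGroup.mk (g * k))
      rw [mem_fam hMB]
      have : (g * k)⁻¹ * (g * x * g⁻¹) * (g * k) = k⁻¹ * x * k := by group
      rwa [this]
  · rintro (v | v) x hx y hy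
    · obtain ⟨k, rfl⟩ := QuotientGroup.mk_surjective v
      have hx' : x ∈ fam N A (QuotientGroup.mk k) := hx
      have hy' : y ∈ fam N A (QuotientGroup.mk k) := hy
      rw [mem_fam hNA] at hx' hy'
      exact hcomm N hNa k x y hx' hy'
    · obtain ⟨k, rfl⟩ := QuotientGroup.mk_surjective v
      have hx' : x ∈ fam M B (QuotientGroup.mk k) := hx
      have hy' : y ∈ fam M B (QuotientGroup.mk k) := hy
      rw [mem_fam hMB] at hx' hy'
      exact hcomm M hMa k x y hx' hy'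
  · have key : ∀ g x : G, x • (Sum.inl (QuotientGroup.mk g) : (G ⧸ A) ⊕ (G ⧸ B)) =
        Sum.inl (QuotientGroup.mk g) → x • (Sum.inr (QuotientGroup.mk g) : (G ⧸ A) ⊕ (G ⧸ B)) =
        Sum.inr (QuotientGroup.mk g) → g⁻¹ * x * g ∈ A ⊓ B := by
      intro g x h3 h4
      rw [Sum.smul_inl] at h3
      rw [Sum.smul_inr] at h4
      exact ⟨mem_stab_coset.1 (Sum.inl_injective h3), mem_stab_coset.1 (Sum.inr_injective h4)⟩
    rintro _ _ ⟨g, ⟨rfl, rfl⟩ | ⟨rfl, rfl⟩⟩ x ⟨hx, hy⟩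
    · show x ∈ fam N A (QuotientGroup.mk g)
      rw [mem_fam hNA]
      exact h1 (key g x hx hy)
    · show x ∈ fam M B (QuotientGroup.mk g)
      rw [mem_fam hMB]
      exact h2 (key g x hy hx)
  · have hst : ∀ (v : G ⧸ A), MulAction.stabilizer G (Sum.inl v : (G ⧸ A) ⊕ (G ⧸ B)) =
        MulAction.stabilizer G v := by
      intro v
      ext x
      rw [MulAction.mem_stabilizer_iff, MulAction.mem_stabilizer_iff, Sum.smul_inl,
        Sum.inl_injective.eq_iff]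
    have hst' : ∀ (v : G ⧸ B), MulAction.stabilizer G (Sum.inr v : (G ⧸ A) ⊕ (G ⧸ B)) =
        MulAction.stabilizer G v := by
      intro v
      ext x
      rw [MulAction.mem_stabilizer_iff, MulAction.mem_stabilizer_iff, Sum.smul_inr,
        Sum.inr_injective.eq_iff]
    rintro (v | v)
    · rw [hst]
      exact CQ_fam hNA hQA v
    · rw [hst']
      exact CQ_fam hMB hQB v

end Pool.Agent.Zk85.CS
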