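import Pool.Agent.N509.TK.Fin

/-!
# Compatible families of normal subgroups of the vertex groups

For an equivariant family of subgroups of the vertex stabilizers which agree on the edges, the group
which they generate meets every vertex stabilizer in the given subgroup.
-/

set_option autoImplicit false

namespace Pool.Agent.Zk85.CS

open SimpleGraph
open Pool.Agent.N509.TK

/-- recursion on a tree -/
theorem exists_fun {V α : Type} {T : SimpleGraph V} (hT : T.IsTree) (o : V) (a0 : α)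
    (Q : V → α → Prop) (h0 : Q o a0) (R : V → V → α → α → Prop)
    (hs : ∀ u v a b, R u v a b → R v u b a)
    (hx : ∀ u v a, T.Adj u v → Q u a → ∃ b, Q v b ∧ R u v a b) :
    ∃ f : V → α, f o = a0 ∧ (∀ v, Q v (f v)) ∧ ∀ u v, T.Adj u v → R u v (f u) (f v) := by
  classical
  have hpath : ∀ v, ∃ p : T.Walk v o, p.IsPath := fun v => by
    obtain ⟨p, hp, -⟩ := hT.existsUnique_path v o
    exact ⟨p, hp⟩
  choose P hP using hpath
  have huniq : ∀ v (q : T.Walk v o), q.IsPath → q = P v := fun v q hq =>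
    (hT.existsUnique_path v o).unique hq (hP v)
  -- the value given by a walk
  let ch : ∀ {v : V}, T.Walk v o → {a : α // Q v a} := fun {v} p =>
    Walk.rec (motive := fun v w _ => w = o → {a : α // Q v a}) (fun {u} h => ⟨a0, h ▸ h0⟩)
      (fun {u v w} h p ih hw => ⟨Classical.choose (hx v u (ih hw).1 h.symm (ih hw).2),
        (Classical.choose_spec (hx v u (ih hw).1 h.symm (ih hw).2)).1⟩) p rfl
  have hcons : ∀ {u v : V} (h : T.Adj u v) (p : T.Walk v o),
      R v u (ch p).1 (ch (Walk.cons h p)).1 := fun {u v} h p =>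
    (Classical.choose_spec (hx v u (ch p).1 h.symm (ch p).2)).2
  refine ⟨fun v => (ch (P v)).1, ?_, fun v => (ch (P v)).2, ?_⟩
  · have h1 : (Walk.nil : T.Walk o o) = P o := huniq o _ Walk.IsPath.nil
    show (ch (P o)).1 = a0
    rw [← h1]
  · have key : ∀ u v, T.Adj u v → v ∉ (P u).support → R u v (ch (P u)).1 (ch (P v)).1 := by
      intro u v huv hv
      have h1 : (Walk.cons huv.symm (P u)).IsPath := (Walk.cons_isPath_iff _ _).2 ⟨hP u, hv⟩
      rw [← huniq v _ h1]
      exact hcons huv.symm (P u)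
    intro u v huv
    by_cases hv : v ∈ (P u).support
    · have hu : u ∉ (P v).support := by
        intro hu
        have hstep : ∀ a b : V, T.Adj a b → b ∈ (P a).support → ∃ q : T.Walk b o, a ∉ q.support := by
          intro a b hab hb
          refine ⟨(P a).dropUntil b hb, fun h => ?_⟩
          have h3 := (Walk.take_spec (P a) hb)
          have h4 : (P a).support.Nodup := (hP a).support_nodup
          rw [← h3, Walk.support_append] at h4
          have h5 : a ∈ ((P a).takeUntil b hb).support := Walk.start_mem_support _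
          have h6 : a ∈ ((P a).dropUntil b hb).support.tail := by
            rw [← Walk.cons_tail_support, List.mem_cons] at h
            exact h.resolve_left hab.ne
          exact (List.nodup_append.1 h4).2.2 a h5 a h6 rfl
        obtain ⟨q, hq⟩ := hstep u v huv hv
        have h3 : q.bypass = P v := huniq v _ q.bypass_isPath
        apply hq
        apply q.support_bypass_subset_support
        rw [h3]
        exact hu
      exact hs _ _ _ _ (key v u huv.symm hu)
    · exact key u v huv hv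

variable {G V : Type} [Group G] [MulAction G V] {T : SimpleGraph V}

/-- compatible families -/
structure Cmp (T : SimpleGraph V) (N : V → Subgroup G) : Prop where
  fix : ∀ v, ∀ n ∈ N v, n • v = v
  eqv : ∀ (g : G) (v : V), ∀ n ∈ N v, g * n * g⁻¹ ∈ N (g • v)
  cmp : ∀ u v, T.Adj u v → ∀ n ∈ N u, n • v = v → n ∈ N v

variable {N : V → Subgroup G} {S : Set V}

theorem Cmp.normal (hN : Cmp T N) : (⨆ v, N v).Normal := by
  refine ⟨fun x hx g => ?_⟩
  have h1 : (⨆ v : V, N v) ≤ (⨆ v : V, N v).comap (MulAut.conj g).toMonoidHom :=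
    iSup_le fun v x hx => le_iSup N (g • v) (hN.eqv g v x hx)
  exact h1 hx

/-- two decorations of a vertex are equivalent -/
def Eq' (N : V → Subgroup G) (a b : G × V) : Prop := a.2 = b.2 ∧ a.1⁻¹ * b.1 ∈ N a.2

/-- decorations of neighbours -/
def Rl (N : V → Subgroup G) (a b : G × V) : Prop := ∃ c : G, a.1⁻¹ * c ∈ N a.2 ∧ b.1⁻¹ * c ∈ N b.2

/-- one step -/
theorem step (hN : Cmp T N) (hact : ∀ (g : G) (u v : V), T.Adj u v → T.Adj (g • u) (g • v))
    (hS : Tv T N S) {u v : V} (huv : T.Adj u v) {a a' b b' : G × V} (hb : b.2 ∈ S) (hb' : b'.2 ∈ S)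
    (ha2 : a.2 ∈ S) (hau : a.1 • a.2 = u) (hbv : b.1 • b.2 = v) (hau' : a'.1 • a'.2 = u)
    (hbv' : b'.1 • b'.2 = v) (h1 : Rl N a b) (h2 : Rl N a' b') (h : Eq' N a a') : Eq' N b b' := by
  obtain ⟨m, s⟩ := a
  obtain ⟨m', s'⟩ := a'
  obtain ⟨n, t⟩ := b
  obtain ⟨n', t'⟩ := b'
  obtain ⟨rfl, h3⟩ := h
  obtain ⟨c, hc1, hc2⟩ := h1
  obtain ⟨c', hc1', hc2'⟩ := h2
  simp only at *
  have e1 : c • s = u := by
    have := hN.fix s _ hc1
    rw [mul_smul, inv_smul_eq_iff] at this
    rw [this, hau]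
  have e2 : c • t = v := by
    have := hN.fix t _ hc2
    rw [mul_smul, inv_smul_eq_iff] at this
    rw [this, hbv]
  have e1' : c' • s = u := by
    have := hN.fix s _ hc1'
    rw [mul_smul, inv_smul_eq_iff] at this
    rw [this, hau']
  have e2' : c' • t' = v := by
    have := hN.fix t' _ hc2'
    rw [mul_smul, inv_smul_eq_iff] at this
    rw [this, hbv']
  have h4 : c⁻¹ * c' ∈ N s := by
    have : c⁻¹ * c' = (m⁻¹ * c)⁻¹ * (m⁻¹ * m') * (m'⁻¹ * c') := by group
    rw [this]
    exact mul_mem (mul_mem (inv_mem hc1) h3) hc1'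
  have h5 : (c⁻¹ * c') • t' = t := by rw [mul_smul, e2', ← e2, inv_smul_smul]
  have a1 : T.Adj s t := by
    have := hact c⁻¹ _ _ huv
    rwa [← e1, ← e2, inv_smul_smul, inv_smul_smul] at this
  have a2 : T.Adj s t' := by
    have := hact c'⁻¹ _ _ huv
    rwa [← e1', ← e2', inv_smul_smul, inv_smul_smul] at this
  have h6 : t' = t := hS.lc s ha2 t' hb' t hb a2 a1 _ h4 h5
  subst h6
  refine ⟨rfl, ?_⟩
  have h7 := hN.cmp s t' a1 _ h4 h5
  have : n⁻¹ * n' = (n⁻¹ * c) * (c⁻¹ * c') * (n'⁻¹ * c')⁻¹ := by group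
  show n⁻¹ * n' ∈ N t'
  rw [this]
  exact mul_mem (mul_mem hc2 h7) (inv_mem hc2')

/-- the section: `m v • r v = v` -/
theorem section' (hN : Cmp T N) (hT : T.IsTree)
    (hact : ∀ (g : G) (u v : V), T.Adj u v → T.Adj (g • u) (g • v)) (hS : Tv T N S) :
    ∃ f : V → G × V, (∀ v, (f v).1 ∈ (⨆ v, N v) ∧ (f v).2 ∈ S ∧ (f v).1 • (f v).2 = v) ∧
      (∀ s ∈ S, Eq' N (1, s) (f s)) ∧
      ∀ h ∈ (⨆ v, N v), ∀ v, Eq' N (f v) (h⁻¹ * (f (h • v)).1, (f (h • v)).2) := by
  obtain ⟨o, ho⟩ := hS.ne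
  obtain ⟨f, hfo, hfQ, hfR⟩ := exists_fun (α := G × V) hT o (1, o)
    (fun v a => a.1 ∈ (⨆ v, N v) ∧ a.2 ∈ S ∧ a.1 • a.2 = v) ⟨one_mem _, ho, one_smul _ _⟩
    (fun _ _ a b => Rl N a b) (fun _ _ a b ⟨c, h1, h2⟩ => ⟨c, h2, h1⟩) (by
      rintro u v ⟨m, s⟩ huv ⟨h1, h2, h3⟩
      have h4 := hact m⁻¹ _ _ huv
      have h5 : m⁻¹ • u = s := by rw [← h3]; exact inv_smul_smul _ _
      rw [h5] at h4
      obtain ⟨t, ht, -, r, hr, h6⟩ := hS.max s h2 _ h4
      refine ⟨(m * r, t), ⟨mul_mem h1 (le_iSup N s hr), ht, ?_⟩, m * r, ?_, ?_⟩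
      · show (m * r) • t = v
        rw [mul_smul, h6, smul_inv_smul]
      · show m⁻¹ * (m * r) ∈ N s
        rwa [inv_mul_cancel_left]
      · show (m * r)⁻¹ * (m * r) ∈ N t
        rw [inv_mul_cancel]
        exact one_mem _)
  refine ⟨f, hfQ, ?_, ?_⟩
  · -- on the transversal
    intro s hs
    obtain ⟨p, hp⟩ := hS.cvx o ho s hs
    have key : ∀ (u v : V) (p : T.Walk u v), (∀ z ∈ p.support, z ∈ S) → Eq' N (1, u) (f u) →
        Eq' N (1, v) (f v) := by
      intro u v p
      induction p with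
      | nil => intro _ h; exact h
      | @cons u w v hadj q ih =>
        intro hsup hu
        apply ih (fun z hz => hsup z (by rw [Walk.support_cons]; exact List.mem_cons_of_mem _ hz))
        have hwS : w ∈ S := hsup w (by
          rw [Walk.support_cons]; exact List.mem_cons_of_mem _ q.start_mem_support)
        have huS : u ∈ S := hsup u (Walk.start_mem_support _)
        refine step hN hact hS hadj (a := (1, u)) (b := (1, w)) (b' := f w) (a' := f u) hwS
          (hfQ w).2.1 huS (one_smul _ _) (one_smul _ _) (hfQ u).2.2 (hfQ w).2.2 ?_ (hfR u w hadj) hu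
        exact ⟨1, by simp [one_mem], by simp [one_mem]⟩
    refine key o s p hp ?_
    rw [hfo]
    exact ⟨rfl, by simp [one_mem]⟩
  · -- equivariance
    have hE : (⨆ v, N v) ≤
        ({ carrier := {h | ∀ v, Eq' N (f v) (h⁻¹ * (f (h • v)).1, (f (h • v)).2)}
           one_mem' := fun v => ⟨by rw [one_smul], by
            show (f v).1⁻¹ * (1⁻¹ * (f ((1 : G) • v)).1) ∈ _
            rw [one_smul, inv_one, one_mul, inv_mul_cancel]; exact one_mem _⟩
           mul_mem' := by
            intro h k hh hk v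
            have h1 := hh (k • v)
            have h2 := hk v
            refine ⟨by
              show (f v).2 = (f ((h * k) • v)).2
              rw [mul_smul]; exact h2.1.trans h1.1, ?_⟩
            show (f v).1⁻¹ * ((h * k)⁻¹ * (f ((h * k) • v)).1) ∈ N (f v).2
            have h3 : (f v).1⁻¹ * (k⁻¹ * (f (k • v)).1) ∈ N (f v).2 := h2.2
            have h4 : (f (k • v)).1⁻¹ * (h⁻¹ * (f (h • k • v)).1) ∈ N (f (k • v)).2 := h1.2
            have h5 : (f v).2 = (f (k • v)).2 := h2.1
            rw [← h5] at h4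
            have h6 := mul_mem h3 h4
            have h7 : (f v).1⁻¹ * (k⁻¹ * (f (k • v)).1) * ((f (k • v)).1⁻¹ *
                (h⁻¹ * (f (h • k • v)).1)) = (f v).1⁻¹ * ((h * k)⁻¹ * (f (h • k • v)).1) := by group
            rw [h7] at h6
            rwa [mul_smul]
           inv_mem' := by
            intro h hh v
            have h1 := hh (h⁻¹ • v)
            rw [smul_inv_smul] at h1
            have h5 : (f (h⁻¹ • v)).2 = (f v).2 := h1.1
            refine ⟨h5.symm, ?_⟩
            have h2 : (f (h⁻¹ • v)).1⁻¹ * (h⁻¹ * (f v).1) ∈ N (f (h⁻¹ • v)).2 := h1.2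
            rw [h5] at h2
            have h3 := inv_mem h2
            show (f v).1⁻¹ * (h⁻¹⁻¹ * (f (h⁻¹ • v)).1) ∈ N (f v).2
            have h7 : ((f (h⁻¹ • v)).1⁻¹ * (h⁻¹ * (f v).1))⁻¹ =
                (f v).1⁻¹ * (h⁻¹⁻¹ * (f (h⁻¹ • v)).1) := by group
            rwa [h7] at h3 } : Subgroup G) := by
      refine iSup_le fun w h hh => ?_
      show ∀ v, Eq' N (f v) (h⁻¹ * (f (h • v)).1, (f (h • v)).2)
      have hhw : h • w = w := hN.fix w h hh
      have hbase : Eq' N (f w) (h⁻¹ * (f (h • w)).1, (f (h • w)).2) := by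
        rw [hhw]
        refine ⟨rfl, ?_⟩
        show (f w).1⁻¹ * (h⁻¹ * (f w).1) ∈ N (f w).2
        have h1 := hN.eqv (f w).1⁻¹ w h⁻¹ (inv_mem hh)
        have h2 : (f w).1⁻¹ • w = (f w).2 := by
          rw [inv_smul_eq_iff]
          exact (hfQ w).2.2.symm
        rw [h2, inv_inv, mul_assoc] at h1
        exact h1
      have hwS : h ∈ ⨆ v, N v := le_iSup N w hh
      intro v
      obtain ⟨p⟩ := hT.connected.preconnected w v
      have key : ∀ (u v : V) (p : T.Walk u v),
          Eq' N (f u) (h⁻¹ * (f (h • u)).1, (f (h • u)).2) →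
          Eq' N (f v) (h⁻¹ * (f (h • v)).1, (f (h • v)).2) := by
        intro u v p
        induction p with
        | nil => exact id
        | @cons u x v hadj q ih =>
          intro hu
          apply ih
          refine step hN hact hS hadj (hfQ x).2.1 (hfQ (h • x)).2.1 (hfQ u).2.1 (hfQ u).2.2
            (hfQ x).2.2 ?_ ?_ (hfR u x hadj) ?_ hu
          · show (h⁻¹ * (f (h • u)).1) • (f (h • u)).2 = u
            rw [mul_smul, (hfQ (h • u)).2.2, inv_smul_smul]
          · show (h⁻¹ * (f (h • x)).1) • (f (h • x)).2 = x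
            rw [mul_smul, (hfQ (h • x)).2.2, inv_smul_smul]
          · obtain ⟨c, hc1, hc2⟩ := hfR (h • u) (h • x) (hact h _ _ hadj)
            refine ⟨h⁻¹ * c, ?_, ?_⟩
            · show (h⁻¹ * (f (h • u)).1)⁻¹ * (h⁻¹ * c) ∈ N (f (h • u)).2
              have : (h⁻¹ * (f (h • u)).1)⁻¹ * (h⁻¹ * c) = (f (h • u)).1⁻¹ * c := by group
              rwa [this]
            · show (h⁻¹ * (f (h • x)).1)⁻¹ * (h⁻¹ * c) ∈ N (f (h • x)).2
              have : (h⁻¹ * (f (h • x)).1)⁻¹ * (h⁻¹ * c) = (f (h • x)).1⁻¹ * c := by group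
              rwa [this]
      exact key w v p hbase
    intro h hh
    exact hE hh

/-- **the stabilizers of the group generated by a compatible family** -/
theorem Cmp.stab (hN : Cmp T N) (hT : T.IsTree)
    (hact : ∀ (g : G) (u v : V), T.Adj u v → T.Adj (g • u) (g • v)) {h : G}
    (hh : h ∈ ⨆ v, N v) {v : V} (hv : h • v = v) : h ∈ N v := by
  obtain ⟨S, hS⟩ := Tv.exists (R := N) hT
  obtain ⟨f, hf1, -, hf3⟩ := section' hN hT hact hS
  have h1 := (hf3 h hh v).2
  rw [hv] at h1
  simp only at h1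
  have h2 := hN.eqv (f v).1 _ _ h1
  rw [(hf1 v).2.2] at h2
  have h3 : (f v).1 * ((f v).1⁻¹ * (h⁻¹ * (f v).1)) * (f v).1⁻¹ = h⁻¹ := by group
  rw [h3] at h2
  exact inv_mem_iff.1 h2

/-- **transversals** -/
theorem Cmp.tq (hN : Cmp T N) (hT : T.IsTree)
    (hact : ∀ (g : G) (u v : V), T.Adj u v → T.Adj (g • u) (g • v)) (hS : Tv T N S) :
    Tq T (⨆ v, N v) S where
  ne := hS.ne
  cvx := hS.cvx
  cover v := by
    obtain ⟨h, hh, s, hs, heq⟩ := hS.cover' hT hact v
    have h1 : (⨆ i : Ix N S, N i.1) ≤ ⨆ v : V, N v := iSup_le fun i => le_iSup N i.1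
    exact ⟨h, h1 hh, s, hs, heq⟩
  trans h hh s hs s' hs' heq := by
    obtain ⟨f, hf1, hf2, hf3⟩ := section' hN hT hact hS
    have h1 := (hf3 h hh s).1
    rw [heq] at h1
    have h2 : s = (f s).2 := (hf2 s hs).1
    have h3 : s' = (f s').2 := (hf2 s' hs').1
    rw [h2, h3]
    exact h1
  max s hs w h := by
    obtain ⟨u, hu, h1, r, hr, h2⟩ := hS.max s hs w h
    exact ⟨u, hu, h1, r, le_iSup N s hr, hN.fix s r hr, h2⟩

end Pool.Agent.Zk85.CS
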