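import Pool.Agent.Zk85.CS.Isol

/-!
# Infinite cyclic edge groups
-/

set_option autoImplicit false

namespace Pool.Agent.Zk85.CS

open SimpleGraph
open Subgroup
open Subgroup.Commensurable (commensurator)
open Pool.Agent.Y110.FJ (ClosedE)
open Pool.Agent.N509.TK
open Pool.Agent.N509.TX (AcylF)
open Pool.Agent.N431.CE
open Pool.Agent.R941.FJ (C_equiv C_le)

section cyclic

variable {E : Type} [Group E]

theorem fin_zpowers (hE : IsCyclic E) {x : E} (hx : x ≠ 1) : (Subgroup.zpowers x).FiniteIndex := by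
  obtain ⟨a, ha⟩ := hE.exists_generator
  obtain ⟨m, hm⟩ := ha x
  have hm : a ^ m = x := hm
  have hm0 : m ≠ 0 := by
    rintro rfl
    rw [zpow_zero] at hm
    exact hx hm.symm
  have hfin : Finite (E ⧸ Subgroup.zpowers x) := by
    have hs : Function.Surjective (fun i : Fin m.natAbs =>
        (QuotientGroup.mk (a ^ (i : ℕ)) : E ⧸ Subgroup.zpowers x)) := by
      intro q
      obtain ⟨y, rfl⟩ := QuotientGroup.mk_surjective q
      obtain ⟨j, hj⟩ := ha y
      have hj : a ^ j = y := hj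
      have h1 : 0 ≤ j % m := Int.emod_nonneg _ hm0
      have h2 : (j % m).toNat < m.natAbs := by
        have := Int.emod_lt_abs j hm0
        rw [Int.abs_eq_natAbs] at this
        omega
      refine ⟨⟨(j % m).toNat, h2⟩, ?_⟩
      show (QuotientGroup.mk (a ^ (j % m).toNat) : E ⧸ Subgroup.zpowers x) = QuotientGroup.mk y
      rw [QuotientGroup.eq, ← hj, ← zpow_natCast, Int.toNat_of_nonneg h1, ← zpow_neg, ← zpow_add]
      refine ⟨j / m, ?_⟩
      show x ^ (j / m) = _
      rw [← hm, ← zpow_mul]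
      congr 1
      have := Int.emod_add_mul_ediv j m
      omega
    exact Finite.of_surjective _ hs
  exact Subgroup.finiteIndex_iff_finite_quotient.2 hfin

theorem tf_cyclic (hE : IsCyclic E) (hinf : Infinite E) {x : E} {k : ℕ} (hk : k ≠ 0)
    (h : x ^ k = 1) : x = 1 := by
  by_contra hx
  have h1 := fin_zpowers hE hx
  have h2 : Finite (Subgroup.zpowers x) :=
    (finite_zpowers.2 (isOfFinOrder_iff_pow_eq_one.2 ⟨k, Nat.pos_of_ne_zero hk, h⟩)).to_subtype
  have h3 : Finite E := by
    have h4 : Finite (E ⧸ Subgroup.zpowers x) := Subgroup.finite_quotient_of_finiteIndex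
    exact (Subgroup.groupEquivQuotientProdSubgroup (s := Subgroup.zpowers x)).finite_iff.2
      inferInstance
  exact not_finite E

end cyclic

variable {C : ∀ (G : Type) [Group G], Prop}
variable {G V : Type} [Group G] [MulAction G V] {T : SimpleGraph V}

theorem relIndex_cyclic {D E : Subgroup G} (hE : IsCyclic E) {x : G} (hx : x ∈ E) (hx' : x ∈ D)
    (h1 : x ≠ 1) : D.relIndex E ≠ 0 := by
  have h2 := fin_zpowers hE (x := (⟨x, hx⟩ : E)) (fun h => h1 (congrArg Subtype.val h))
  have h3 : Subgroup.zpowers (⟨x, hx⟩ : E) ≤ D.subgroupOf E := by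
    rw [Subgroup.zpowers_le]
    exact hx'
  have h4 : (D.subgroupOf E).FiniteIndex := Subgroup.finiteIndex_of_le h3
  exact h4.index_ne_zero

/-- a normal subgroup of the commensurator in the vertex group -/
theorem NC.of (hC : ClosedE C) {v u : V} {N : Subgroup G}
    (hN : N ≤ MulAction.stabilizer G v ⊓ commensurator (Es G v u))
    (hQ : CQ C (MulAction.stabilizer G v ⊓ commensurator (Es G v u)) N)
    (he : ∀ u', T.Adj v u' → Commensurable (Es G v u) (Es G v u') →
      Es G v u' ≤ N ∧ Es G v u' ⊓ ⁅N, N⁆ = ⊥) : NC C G T v u := by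
  obtain ⟨P, _, φ, hP, hφ⟩ := hQ
  have hKv : Kv (1 : commensurator (Es G v u) →* Multiplicative ℤ) v =
      MulAction.stabilizer G v ⊓ commensurator (Es G v u) := by
    apply le_antisymm
    · rintro x ⟨h1, ⟨y, -, rfl⟩⟩
      exact ⟨h1, y.2⟩
    · rintro x ⟨h1, h2⟩
      exact ⟨h1, ⟨⟨x, h2⟩, rfl, rfl⟩⟩
  refine ⟨Multiplicative ℤ, inferInstance, 1, N, hC.base.int, ?_, ?_, ?_, ?_⟩
  · rw [hKv]
    exact hN
  · intro g hg hgv n hn
    have h1 := hN hn
    have h2 : φ ⟨n, h1⟩ = 1 := (hφ _).2 hn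
    have h3 : φ (⟨g, hgv, hg⟩ * ⟨n, h1⟩ * ⟨g, hgv, hg⟩⁻¹) = 1 := by
      rw [map_mul, map_mul, h2, mul_one, ← map_mul, mul_inv_cancel, map_one]
    exact (hφ _).1 h3
  · intro u' hu' hcom
    exact ⟨fun x hx => (he u' hu' hcom).1 hx.1, (he u' hu' hcom).2⟩
  · intro g hg hgv
    have h1 : Kv (1 : commensurator (Es G v u) →* Multiplicative ℤ) v ⊔ Subgroup.zpowers g ≤
        MulAction.stabilizer G v ⊓ commensurator (Es G v u) := by
      refine sup_le hKv.le ?_
      rw [Subgroup.zpowers_le]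
      exact ⟨hgv, hg⟩
    exact ⟨P, inferInstance, φ.comp (Subgroup.inclusion h1), hP, fun x => hφ _⟩

/-- the condition at an edge with infinite cyclic stabilizer -/
def CycC (C : ∀ (G : Type) [Group G], Prop) (G : Type) {V : Type} [Group G] [MulAction G V]
    (T : SimpleGraph V) (v u : V) : Prop :=
  ∃ N ≤ MulAction.stabilizer G v ⊓ commensurator (Es G v u),
    CQ C (MulAction.stabilizer G v ⊓ commensurator (Es G v u)) N ∧
    (∀ u', T.Adj v u' → Commensurable (Es G v u) (Es G v u') → Es G v u' ≤ N) ∧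
    Es G v u ⊓ ⁅N, N⁆ = ⊥

theorem CycC.nc (hC : ClosedE C) {v u : V} (hinf : Infinite (Es G v u))
    (hcyc : ∀ u', T.Adj v u' → Infinite (Es G v u') → IsCyclic (Es G v u'))
    (h : CycC C G T v u) : NC C G T v u := by
  obtain ⟨N, hN, hQ, he, hd⟩ := h
  refine NC.of hC hN hQ fun u' hu' hcom => ⟨he u' hu' hcom, ?_⟩
  rw [eq_bot_iff]
  rintro x ⟨hx, hx'⟩
  obtain ⟨k, hk, -, hk'⟩ := Subgroup.exists_pow_mem_of_relIndex_ne_zero hcom.1 hx
  have h1 : x ^ k ∈ Es G v u ⊓ ⁅N, N⁆ := ⟨hk'.1, pow_mem hx' k⟩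
  rw [hd, Subgroup.mem_bot] at h1
  have hinf' : Infinite (Es G v u') := by
    by_contra hfin
    rw [not_infinite_iff_finite] at hfin
    have h2 : Finite (Es G v u) := by
      have h3 : ((Es G v u').subgroupOf (Es G v u)).FiniteIndex := ⟨hcom.2⟩
      have h4 : Finite ((Es G v u').subgroupOf (Es G v u)) :=
        Finite.of_injective (fun y => (⟨((y : Es G v u) : G), y.2⟩ : Es G v u')) (by
          intro a b hab
          have h := congrArg (fun z : Es G v u' => (z : G)) hab
          exact Subtype.ext (Subtype.ext h))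
      have h5 : Finite ((Es G v u) ⧸ (Es G v u').subgroupOf (Es G v u)) :=
        Subgroup.finite_quotient_of_finiteIndex
      exact (Subgroup.groupEquivQuotientProdSubgroup
        (s := (Es G v u').subgroupOf (Es G v u))).finite_iff.2 inferInstance
    exact not_finite (Es G v u)
  have h2 := tf_cyclic (hcyc u' hu' hinf') hinf' (x := (⟨x, hx⟩ : Es G v u')) hk.ne'
    (Subtype.ext h1)
  exact congrArg Subtype.val h2

/-- **infinite cyclic edge groups** -/
theorem cyc (hC : ClosedE C) (hM : ∀ (G : Type) [Group G], derivedSeries G 2 = ⊥ → C G)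
    (hA : AcylF C) (hT : T.IsTree) (hact : ∀ (g : G) (u v : V), T.Adj u v → T.Adj (g • u) (g • v))
    (hV : ∀ v : V, C ↥(MulAction.stabilizer G v)) (n : ℕ)
    (hcyc : ∀ v u, T.Adj v u → (Infinite (Es G v u) ∧ IsCyclic (Es G v u)) ∨
      ∀ F : Finset G, (∀ g ∈ F, g ∈ Es G v u) → F.card ≤ n)
    (hE : ∀ v u : V, T.Adj v u → Infinite (Es G v u) → CycC C G T v u) : C G := by
  classical
  have hinf : ∀ v u, T.Adj v u → Infinite (Es G v u) → IsCyclic (Es G v u) := by
    intro v u hvu hi
    rcases hcyc v u hvu with h | h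
    · exact h.2
    · obtain ⟨s, hs⟩ := Infinite.exists_subset_card_eq (Es G v u) (n + 1)
      have h1 := h (s.map ⟨Subtype.val, Subtype.val_injective⟩) (by
        intro g hg
        rw [Finset.mem_map] at hg
        obtain ⟨y, -, rfl⟩ := hg
        exact y.2)
      rw [Finset.card_map, hs] at h1
      omega
  refine isol hC hM hA hT hact hV (max n 1) ?_ fun v u hvu hi =>
    Or.inr ((hE v u hvu hi).nc hC hi fun u' hu' hi' => hinf v u' hu' hi')
  intro v a b hva hvb _
  rcases hcyc v a hva with h1 | h1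
  · rcases hcyc v b hvb with h2 | h2
    · by_cases h3 : ∃ x ∈ Es G v a ⊓ Es G v b, x ≠ 1
      · obtain ⟨x, ⟨hxa, hxb⟩, hx⟩ := h3
        exact Or.inl ⟨h1.1, h2.1, relIndex_cyclic h2.2 hxb hxa hx, relIndex_cyclic h1.2 hxa hxb hx⟩
      · right
        intro F hF
        refine (Finset.card_le_one.2 ?_).trans (le_max_right _ _)
        intro x hx y hy
        have e : ∀ z ∈ F, z = 1 := fun z hz => by
          by_contra hz1
          exact h3 ⟨z, hF z hz, hz1⟩
        rw [e x hx, e y hy]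
    · exact Or.inr fun F hF => (h2 F fun g hg => (hF g hg).2).trans (le_max_left _ _)
  · exact Or.inr fun F hF => (h1 F fun g hg => (hF g hg).1).trans (le_max_left _ _)

end Pool.Agent.Zk85.CS
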