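import Pool.Agent.Zk85.CS.Quo
import Pool.Agent.N509.TX.Fg

/-!
# Local data at the vertices
-/

set_option autoImplicit false

namespace Pool.Agent.Zk85.CS

open SimpleGraph
open Pool.Agent.Y110.FJ (ClosedE)
open Pool.Agent.N509.TK
open Pool.Agent.N509.TX
open Pool.Agent.R941.FJ (C_equiv C_le)

variable {C : ∀ (G : Type) [Group G], Prop}

section

variable {G V : Type} [Group G] [MulAction G V] {T : SimpleGraph V}

/-- the data at a vertex, for a finite set of neighbours -/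
structure Dat (C : ∀ (G : Type) [Group G], Prop) {P : Type} [Group P] (f : G →* P) (v : V)
    (F : Finset V) (N : Subgroup G) : Prop where
  cl : C P
  le : N ≤ Sb f.ker v
  nor : ∀ g : G, g • v = v → ∀ n ∈ N, g * n * g⁻¹ ∈ N
  edge : ∀ u ∈ F, ∀ g : G, g • v = v → g • u = u → f g = 1 → g ∈ N
  der : ∀ u ∈ F, ∀ g ∈ ⁅N, N⁆, g • u = u → g = 1
  top : ∀ g : G, g • v = v → CQ C (Sb f.ker v ⊔ Subgroup.zpowers g) N

/-- finitely many homomorphisms -/
theorem fin_prod (hC : ClosedE C) (R : Finset V) (P : V → Type) [∀ v, Group (P v)]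
    (f : ∀ v, G →* P v) (hP : ∀ v ∈ R, C (P v)) :
    ∃ (Q : Type) (_ : Group Q) (F : G →* Q), C Q ∧ ∀ v ∈ R, F.ker ≤ (f v).ker := by
  classical
  induction R using Finset.induction_on with
  | empty =>
    exact ⟨Multiplicative ℤ, inferInstance, 1, hC.base.int, fun e he => absurd he (by simp)⟩
  | insert a R _ ih =>
    obtain ⟨Q, _, F, hQ, hF⟩ := ih fun v hv => hP v (Finset.mem_insert_of_mem hv)
    refine ⟨Q × P a, inferInstance, F.prod (f a),
      hC.base.prod _ _ hQ (hP a (Finset.mem_insert_self _ _)), fun v hv => ?_⟩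
    rcases Finset.mem_insert.1 hv with rfl | hv
    · exact fun y hy => congrArg Prod.snd (hy : F.prod (f v) y = 1)
    · exact fun y hy => hF v hv (congrArg Prod.fst (hy : F.prod (f a) y = 1))

theorem conj_comm_mem {N : Subgroup G} {s : G} (h : ∀ n ∈ N, s * n * s⁻¹ ∈ N) {x : G}
    (hx : x ∈ ⁅N, N⁆) : s * x * s⁻¹ ∈ ⁅N, N⁆ := by
  have h1 : N.map (MulAut.conj s).toMonoidHom ≤ N := by
    rintro _ ⟨n, hn, rfl⟩
    exact h n hn
  have h2 : (⁅N, N⁆).map (MulAut.conj s).toMonoidHom ≤ ⁅N, N⁆ := by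
    rw [Subgroup.map_commutator]
    exact Subgroup.commutator_mono h1 h1
  exact h2 ⟨x, hx, rfl⟩

/-- **local data, finitely many orbits** -/
theorem local_fin (hC : ClosedE C) (hM : ∀ (G : Type) [Group G], derivedSeries G 2 = ⊥ → C G)
    (hT : T.IsTree) (hact : ∀ (g : G) (u v : V), T.Adj u v → T.Adj (g • u) (g • v))
    (hV : ∀ v : V, C ↥(MulAction.stabilizer G v)) (Φ : Finset (V × V))
    (hΦ : ∀ e ∈ Φ, T.Adj e.1 e.2)
    (hcov : ∀ x y, T.Adj x y → ∃ h : G, (h • x, h • y) ∈ Φ ∨ (h • y, h • x) ∈ Φ)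
    (hD : ∀ (v : V) (F : Finset V), (∀ u ∈ F, T.Adj v u) →
      ∃ (P : Type) (_ : Group P) (f : G →* P) (N : Subgroup G), Dat C f v F N) : C G := by
  classical
  obtain ⟨o⟩ := hT.connected.nonempty
  obtain ⟨Ψ, hΨ⟩ : ∃ Ψ : Finset (V × V), Ψ = Φ ∪ Φ.image Prod.swap := ⟨_, rfl⟩
  have hΨT : ∀ e ∈ Ψ, T.Adj e.1 e.2 := by
    intro e he
    rw [hΨ, Finset.mem_union, Finset.mem_image] at he
    rcases he with he | ⟨e', he', rfl⟩
    · exact hΦ e he
    · exact (hΦ e' he').symm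
  have hcov' : ∀ x y, T.Adj x y → ∃ h : G, (h • x, h • y) ∈ Ψ := by
    intro x y hxy
    obtain ⟨h, h1 | h1⟩ := hcov x y hxy
    · exact ⟨h, by rw [hΨ]; exact Finset.mem_union_left _ h1⟩
    · exact ⟨h, by rw [hΨ]; exact Finset.mem_union_right _ (Finset.mem_image.2 ⟨_, h1, rfl⟩)⟩
  obtain ⟨R, hR⟩ : ∃ R : Finset V, R = insert o (Ψ.image Prod.fst) := ⟨_, rfl⟩
  have hR1 : ∀ v : V, ∃ g : G, g • v ∈ R := by
    intro v
    by_cases hv : v = o
    · refine ⟨1, ?_⟩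
      rw [one_smul, hv, hR]
      exact Finset.mem_insert_self _ _
    · obtain ⟨p⟩ := hT.connected.preconnected v o
      cases p with
      | nil => exact absurd rfl hv
      | cons h p =>
        obtain ⟨g, hg⟩ := hcov' _ _ h
        refine ⟨g, ?_⟩
        rw [hR]
        exact Finset.mem_insert_of_mem (Finset.mem_image.2 ⟨_, hg, rfl⟩)
  have hR2 : ∀ c : MulAction.orbitRel.Quotient G V, ∃ r ∈ R,
      (Quotient.mk'' r : MulAction.orbitRel.Quotient G V) = c := by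
    intro c
    obtain ⟨v, rfl⟩ := Quotient.exists_rep c
    obtain ⟨g, hg⟩ := hR1 v
    exact ⟨g • v, hg, Quotient.sound ⟨g, rfl⟩⟩
  choose ρ0 hρ0 hρ0' using hR2
  obtain ⟨ρ, hρ⟩ : ∃ ρ : V → V, ρ = fun v => ρ0 (Quotient.mk'' v) := ⟨_, rfl⟩
  have hρR : ∀ v, ρ v ∈ R := fun v => by rw [hρ]; exact hρ0 _
  have hρg : ∀ (g : G) v, ρ (g • v) = ρ v := by
    intro g v
    rw [hρ]
    show ρ0 (Quotient.mk'' (g • v)) = ρ0 (Quotient.mk'' v)
    congr 1
    exact Quotient.sound ⟨g, rfl⟩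
  have hk : ∀ v, ∃ k : G, k • ρ v = v := by
    intro v
    have h1 : (Quotient.mk'' (ρ v) : MulAction.orbitRel.Quotient G V) = Quotient.mk'' v := by
      rw [hρ]
      exact hρ0' _
    obtain ⟨g, hg⟩ := Quotient.exact h1
    exact ⟨g⁻¹, by rw [← hg]; exact inv_smul_smul _ _⟩
  choose k hk using hk
  have hρρ : ∀ v, ρ (ρ v) = ρ v := by
    intro v
    have h1 := hρg (k v) (ρ v)
    rw [hk] at h1
    exact h1.symm
  obtain ⟨Fs, hFs⟩ : ∃ Fs : V → Finset V, Fs = fun r => (Ψ.filter fun e => ρ e.1 = r).image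
    fun e => (k e.1)⁻¹ • e.2 := ⟨_, rfl⟩
  have hFT : ∀ r, ∀ u ∈ Fs r, T.Adj r u := by
    intro r u hu
    rw [hFs, Finset.mem_image] at hu
    obtain ⟨e, he, rfl⟩ := hu
    rw [Finset.mem_filter] at he
    obtain ⟨he, rfl⟩ := he
    have h1 := hact (k e.1)⁻¹ _ _ (hΨT e he)
    have h2 : (k e.1)⁻¹ • e.1 = ρ e.1 := by
      rw [inv_smul_eq_iff]
      exact (hk _).symm
    rwa [h2] at h1
  have hA : ∀ v w, T.Adj (ρ v) w → ∃ s : G, s • ρ v = ρ v ∧ s • w ∈ Fs (ρ v) := by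
    intro v w hvw
    obtain ⟨h, hh⟩ := hcov' _ _ hvw
    have h1 : ρ (h • ρ v) = ρ v := by rw [hρg, hρρ]
    have h2 := hk (h • ρ v)
    rw [h1] at h2
    refine ⟨(k (h • ρ v))⁻¹ * h, ?_, ?_⟩
    · rw [mul_smul, inv_smul_eq_iff]
      exact h2.symm
    · rw [hFs, Finset.mem_image]
      refine ⟨(h • ρ v, h • w), ?_, ?_⟩
      · rw [Finset.mem_filter]
        exact ⟨hh, h1⟩
      · show (k (h • ρ v))⁻¹ • h • w = _
        rw [mul_smul]
  choose P iP f N hN using fun r => hD r (Fs r) (hFT r)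
  obtain ⟨Q, _, F, hQ, hF⟩ := fin_prod hC R P f fun v _ => (hN v).cl
  -- the family
  obtain ⟨M, hMd⟩ : ∃ M : V → Subgroup G, ∀ v x, x ∈ M v ↔
      (k v)⁻¹ * x * k v ∈ N (ρ v) ∧ F x = 1 := by
    refine ⟨fun v => (N (ρ v)).comap (MulAut.conj (k v)⁻¹).toMonoidHom ⊓ F.ker, fun v x => ?_⟩
    rw [Subgroup.mem_inf, Subgroup.mem_comap]
    show (k v)⁻¹ * x * (k v)⁻¹⁻¹ ∈ N (ρ v) ∧ F x = 1 ↔ _
    rw [inv_inv]
  have hfx : ∀ v x, x • v = v → ((k v)⁻¹ * x * k v) • ρ v = ρ v := by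
    intro v x hx
    rw [mul_smul, mul_smul, hk, hx, inv_smul_eq_iff, hk]
  have hfy : ∀ v x, ((k v)⁻¹ * x * k v) • ρ v = ρ v → x • v = v := by
    intro v x hx
    rw [mul_smul, mul_smul, hk, inv_smul_eq_iff, hk] at hx
    exact hx
  have hFc : ∀ v x, F x = 1 → f (ρ v) ((k v)⁻¹ * x * k v) = 1 := by
    intro v x hx
    have h1 : F ((k v)⁻¹ * x * k v) = 1 := by
      rw [map_mul, map_mul, hx, mul_one, ← map_mul, inv_mul_cancel, map_one]
    exact hF _ (hρR v) h1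
  refine rel hC hM hT hact hV (N := M) F hQ ?_ ?_ ?_ ?_ ?_
  · intro v x hx
    rw [hMd] at hx
    exact ⟨hfy v x ((hN (ρ v)).le hx.1).1, hx.2⟩
  · intro g v n hn
    rw [hMd] at hn ⊢
    have h1 := hk (g • v)
    rw [hρg] at h1 ⊢
    refine ⟨?_, ?_⟩
    · have h2 : ((k (g • v))⁻¹ * g * k v) • ρ v = ρ v := by
        rw [mul_smul, mul_smul, hk, inv_smul_eq_iff, h1]
      have h3 := (hN (ρ v)).nor _ h2 _ hn.1
      have h4 : (k (g • v))⁻¹ * g * k v * ((k v)⁻¹ * n * k v) * ((k (g • v))⁻¹ * g * k v)⁻¹ =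
          (k (g • v))⁻¹ * (g * n * g⁻¹) * k (g • v) := by group
      rwa [h4] at h3
    · rw [map_mul, map_mul, hn.2, mul_one, ← map_mul, mul_inv_cancel, map_one]
  · intro u v huv g hgu hgv hg
    rw [hMd]
    refine ⟨?_, hg⟩
    have h1 : T.Adj (ρ u) ((k u)⁻¹ • v) := by
      have := hact (k u)⁻¹ _ _ huv
      have h2 : (k u)⁻¹ • u = ρ u := by
        rw [inv_smul_eq_iff]
        exact (hk _).symm
      rwa [h2] at this
    obtain ⟨s, hs1, hs2⟩ := hA _ _ h1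
    have h2 := (hN (ρ u)).edge _ hs2 (s * ((k u)⁻¹ * g * k u) * s⁻¹) ?_ ?_ ?_
    · have h3 := (hN (ρ u)).nor s⁻¹ (by rw [inv_smul_eq_iff]; exact hs1.symm) _ h2
      have h4 : s⁻¹ * (s * ((k u)⁻¹ * g * k u) * s⁻¹) * s⁻¹⁻¹ = (k u)⁻¹ * g * k u := by group
      rwa [h4] at h3
    · have h5 : s⁻¹ • ρ u = ρ u := by rw [inv_smul_eq_iff]; exact hs1.symm
      rw [mul_smul, mul_smul, h5, hfx u g hgu, hs1]
    · rw [mul_smul, mul_smul, inv_smul_smul, mul_smul, mul_smul, smul_inv_smul, hgv]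
    · rw [map_mul, map_mul, hFc u g hg, mul_one, ← map_mul, mul_inv_cancel, map_one]
  · intro u v huv g hg hgv
    have h1 : T.Adj (ρ u) ((k u)⁻¹ • v) := by
      have := hact (k u)⁻¹ _ _ huv
      have h2 : (k u)⁻¹ • u = ρ u := by
        rw [inv_smul_eq_iff]
        exact (hk _).symm
      rwa [h2] at this
    obtain ⟨s, hs1, hs2⟩ := hA _ _ h1
    have h2 : (M u).map (MulAut.conj (k u)⁻¹).toMonoidHom ≤ N (ρ u) := by
      rintro _ ⟨x, hx, rfl⟩
      show (k u)⁻¹ * x * (k u)⁻¹⁻¹ ∈ N (ρ u)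
      have hx' := ((hMd u x).1 hx).1
      rwa [inv_inv]
    have h3 : (k u)⁻¹ * g * k u ∈ ⁅N (ρ u), N (ρ u)⁆ := by
      have h4 : (⁅M u, M u⁆).map (MulAut.conj (k u)⁻¹).toMonoidHom ≤ ⁅N (ρ u), N (ρ u)⁆ := by
        rw [Subgroup.map_commutator]
        exact Subgroup.commutator_mono h2 h2
      have h5 := h4 ⟨g, hg, rfl⟩
      have h6 : (MulAut.conj (k u)⁻¹).toMonoidHom g = (k u)⁻¹ * g * k u := by
        show (k u)⁻¹ * g * (k u)⁻¹⁻¹ = _
        rw [inv_inv]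
      rwa [h6] at h5
    have h4 := conj_comm_mem ((hN (ρ u)).nor s hs1) h3
    have h5 := (hN (ρ u)).der _ hs2 _ h4 (by
      rw [mul_smul, mul_smul, inv_smul_smul, mul_smul, mul_smul, smul_inv_smul, hgv])
    have h6 : g = (s * (k u)⁻¹)⁻¹ * (s * ((k u)⁻¹ * g * k u) * s⁻¹) * (s * (k u)⁻¹) := by group
    rw [h6, h5]
    group
  · intro v g hg
    obtain ⟨Z, _, φ, hZ, hφ⟩ := (hN (ρ v)).top _ (hfx v g hg)
    have hmem : ∀ x ∈ Sb F.ker v ⊔ Subgroup.zpowers g, (k v)⁻¹ * x * k v ∈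
        Sb (f (ρ v)).ker (ρ v) ⊔ Subgroup.zpowers ((k v)⁻¹ * g * k v) := by
      have h1 : Sb F.ker v ⊔ Subgroup.zpowers g ≤ (Sb (f (ρ v)).ker (ρ v) ⊔
          Subgroup.zpowers ((k v)⁻¹ * g * k v)).comap (MulAut.conj (k v)⁻¹).toMonoidHom := by
        refine sup_le ?_ ?_
        · rintro x ⟨hx1, hx2⟩
          rw [Subgroup.mem_comap]
          refine (le_sup_left : Sb (f (ρ v)).ker (ρ v) ≤ _) ?_
          have h2 : (MulAut.conj (k v)⁻¹).toMonoidHom x = (k v)⁻¹ * x * k v := by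
            show (k v)⁻¹ * x * (k v)⁻¹⁻¹ = _
            rw [inv_inv]
          rw [h2]
          exact ⟨hfx v x hx1, hFc v x hx2⟩
        · rw [Subgroup.zpowers_le, Subgroup.mem_comap]
          have h2 : (MulAut.conj (k v)⁻¹).toMonoidHom g = (k v)⁻¹ * g * k v := by
            show (k v)⁻¹ * g * (k v)⁻¹⁻¹ = _
            rw [inv_inv]
          rw [h2]
          exact (le_sup_right : Subgroup.zpowers _ ≤ _) (Subgroup.mem_zpowers _)
      intro x hx
      have h3 := h1 hx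
      rw [Subgroup.mem_comap] at h3
      have h2 : (MulAut.conj (k v)⁻¹).toMonoidHom x = (k v)⁻¹ * x * k v := by
        show (k v)⁻¹ * x * (k v)⁻¹⁻¹ = _
        rw [inv_inv]
      rwa [h2] at h3
    let c : ↥(Sb F.ker v ⊔ Subgroup.zpowers g) →*
        ↥(Sb (f (ρ v)).ker (ρ v) ⊔ Subgroup.zpowers ((k v)⁻¹ * g * k v)) :=
      { toFun := fun x => ⟨(k v)⁻¹ * (x : G) * k v, hmem x x.2⟩
        map_one' := Subtype.ext (by
          show (k v)⁻¹ * 1 * k v = 1
          group)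
        map_mul' := fun x y => Subtype.ext (by
          show (k v)⁻¹ * ((x : G) * (y : G)) * k v =
            (k v)⁻¹ * (x : G) * k v * ((k v)⁻¹ * (y : G) * k v)
          group) }
    refine ⟨Z × Q, inferInstance, (φ.comp c).prod (F.comp (Subgroup.subtype _)),
      hC.base.prod _ _ hZ hQ, fun x => ?_⟩
    rw [hMd]
    show (φ (c x), F (x : G)) = (1, 1) ↔ _
    rw [Prod.mk.injEq, hφ]
    exact Iff.rfl

/-- restriction of the data -/
theorem Dat.restrict (hC : ClosedE C) {P : Type} [Group P] {f : G →* P} {v : V} {F : Finset V}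
    {N : Subgroup G} (h : Dat C f v F N) (H : Subgroup G) {W : Type} [MulAction H W] {ι : W → V}
    (hι : Function.Injective ι) (heqv : ∀ (g : H) (w : W), ι (g • w) = g • ι w) {w : W}
    (hw : ι w = v) {F' : Finset W} (hF : ∀ u ∈ F', ι u ∈ F) :
    Dat C (f.comp H.subtype) w F' (N.comap H.subtype) := by
  subst hw
  have hfix : ∀ (g : H) (x : W), g • x = x ↔ (g : G) • ι x = ι x := fun g x =>
    ⟨fun h1 => by
      have := heqv g x
      rw [h1] at this
      exact this.symm, fun h1 => hι (by rw [heqv]; exact h1)⟩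
  have hle : (Sb (f.comp H.subtype).ker w) ≤ (Sb f.ker (ι w)).comap H.subtype := by
    rintro x ⟨hx1, hx2⟩
    exact ⟨(hfix x w).1 hx1, hx2⟩
  refine ⟨h.cl, ?_, ?_, ?_, ?_, ?_⟩
  · intro x hx
    have h1 := h.le hx
    exact ⟨(hfix x w).2 h1.1, h1.2⟩
  · intro g hg n hn
    exact h.nor g ((hfix g w).1 hg) n hn
  · intro u hu g hgw hgu hg
    exact h.edge _ (hF u hu) g ((hfix g w).1 hgw) ((hfix g u).1 hgu) hg
  · intro u hu g hg hgu
    have h1 : (g : G) ∈ ⁅N, N⁆ := by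
      have h2 : (⁅N.comap H.subtype, N.comap H.subtype⁆).map H.subtype ≤ ⁅N, N⁆ := by
        rw [Subgroup.map_commutator]
        exact Subgroup.commutator_mono (Subgroup.map_comap_le _ _) (Subgroup.map_comap_le _ _)
      exact h2 ⟨g, hg, rfl⟩
    exact Subtype.ext (h.der _ (hF u hu) g h1 ((hfix g u).1 hgu))
  · intro g hg
    obtain ⟨Z, _, φ, hZ, hφ⟩ := h.top g ((hfix g w).1 hg)
    have hmem : ∀ x ∈ Sb (f.comp H.subtype).ker w ⊔ Subgroup.zpowers g,
        (x : G) ∈ Sb f.ker (ι w) ⊔ Subgroup.zpowers (g : G) := by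
      have h1 : Sb (f.comp H.subtype).ker w ⊔ Subgroup.zpowers g ≤
          (Sb f.ker (ι w) ⊔ Subgroup.zpowers (g : G)).comap H.subtype := by
        refine sup_le (hle.trans (Subgroup.comap_mono le_sup_left)) ?_
        rw [Subgroup.zpowers_le]
        exact (le_sup_right : Subgroup.zpowers _ ≤ _) (Subgroup.mem_zpowers _)
      exact fun x hx => h1 hx
    let c : ↥(Sb (f.comp H.subtype).ker w ⊔ Subgroup.zpowers g) →*
        ↥(Sb f.ker (ι w) ⊔ Subgroup.zpowers (g : G)) :=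
      { toFun := fun x => ⟨((x : H) : G), hmem x x.2⟩
        map_one' := rfl
        map_mul' := fun x y => rfl }
    exact ⟨Z, inferInstance, φ.comp c, hZ, fun x => hφ (c x)⟩

/-- **local data** -/
theorem local_data (hC : ClosedE C) (hM : ∀ (G : Type) [Group G], derivedSeries G 2 = ⊥ → C G)
    (hT : T.IsTree) (hact : ∀ (g : G) (u v : V), T.Adj u v → T.Adj (g • u) (g • v))
    (hV : ∀ v : V, C ↥(MulAction.stabilizer G v))
    (hD : ∀ (v : V) (F : Finset V), (∀ u ∈ F, T.Adj v u) →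
      ∃ (P : Type) (_ : Group P) (f : G →* P) (N : Subgroup G), Dat C f v F N) : C G := by
  classical
  refine of_fg hC fun H hfg => ?_
  have hactH : ∀ (g : H) (u v : V), T.Adj u v → T.Adj (g • u) (g • v) := fun g u v h => hact g u v h
  obtain ⟨o⟩ := hT.connected.nonempty
  obtain ⟨W, _, T', ι, Φ, hS, -, hΦ, hcov⟩ := fg_subtree (G := H) hT hactH hfg o
  -- the edges of `T'` in the orbits of `Φ`
  obtain ⟨Φ', hΦ', hcov'⟩ : ∃ Φ' : Finset (W × W), (∀ e ∈ Φ', T'.Adj e.1 e.2) ∧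
      ∀ x y, T'.Adj x y → ∃ h : H, (h • x, h • y) ∈ Φ' ∨ (h • y, h • x) ∈ Φ' := by
    obtain ⟨Ψ, hΨ⟩ : ∃ Ψ : Set (W × W), Ψ = {e | T'.Adj e.1 e.2 ∧ (ι e.1, ι e.2) ∈ Φ} := ⟨_, rfl⟩
    have hfin : Ψ.Finite := by
      refine Set.Finite.of_finite_image (f := fun e : W × W => (ι e.1, ι e.2))
        (Φ.finite_toSet.subset ?_) ?_
      · rintro _ ⟨e, he, rfl⟩
        rw [hΨ] at he
        exact he.2
      · intro a _ b _ hab
        have h1 := congrArg Prod.fst hab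
        have h2 := congrArg Prod.snd hab
        exact Prod.ext (hS.inj h1) (hS.inj h2)
    refine ⟨hfin.toFinset, fun e he => ?_, fun x y hxy => ?_⟩
    · rw [Set.Finite.mem_toFinset, hΨ] at he
      exact he.1
    · obtain ⟨h, h1⟩ := hcov x y hxy
      refine ⟨h, ?_⟩
      rw [Set.Finite.mem_toFinset, Set.Finite.mem_toFinset, hΨ]
      rcases h1 with h1 | h1
      · left
        refine ⟨hS.act h _ _ hxy, ?_⟩
        show (ι (h • x), ι (h • y)) ∈ Φ
        rw [hS.eqv, hS.eqv]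
        exact h1
      · right
        refine ⟨(hS.act h _ _ hxy).symm, ?_⟩
        show (ι (h • y), ι (h • x)) ∈ Φ
        rw [hS.eqv, hS.eqv]
        exact h1
  refine local_fin (G := H) hC hM hS.tree hS.act ?_ Φ' hΦ' hcov' ?_
  · intro w
    rw [hS.stab]
    exact C_stab hC H (ι w) (hV _)
  · intro w F hF
    obtain ⟨P, _, f, N, h⟩ := hD (ι w) (F.image ι) (by
      intro u hu
      rw [Finset.mem_image] at hu
      obtain ⟨u, hu, rfl⟩ := hu
      exact hS.adj _ _ (hF u hu))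
    exact ⟨P, _, _, _, h.restrict hC H hS.inj hS.eqv rfl
      (fun u hu => Finset.mem_image_of_mem _ hu)⟩

end

end Pool.Agent.Zk85.CS
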