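import Pool.Agent.Zk85.CS.Ab

/-!
# Series with commutative factors
-/

set_option autoImplicit false

namespace Pool.Agent.Zk85.CS

open SimpleGraph
open scoped commutatorElement
open Pool.Agent.Y110.FJ (ClosedE)
open Pool.Agent.N509.TK (metab)
open Pool.Agent.R941.FJ (C_equiv C_le mem_sup_normal)

variable {C : ∀ (G : Type) [Group G], Prop}

/-- a cyclic extension of a group with commutative image modulo `L` is metabelian modulo `L` -/
theorem CQ_step (hM : ∀ (G : Type) [Group G], derivedSeries G 2 = ⊥ → C G)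
    {G : Type} [Group G] {L N : Subgroup G} (hLN : L ≤ N) (g : G)
    (hN : ∀ n ∈ N, ∀ x ∈ N ⊔ Subgroup.zpowers g, x * n * x⁻¹ ∈ N)
    (hL : ∀ n ∈ L, ∀ x ∈ N ⊔ Subgroup.zpowers g, x * n * x⁻¹ ∈ L)
    (hab : ∀ x ∈ N, ∀ y ∈ N, ⁅x, y⁆ ∈ L) : CQ C (N ⊔ Subgroup.zpowers g) L := by
  obtain ⟨K, hK⟩ : ∃ K, K = N ⊔ Subgroup.zpowers g := ⟨_, rfl⟩
  rw [← hK] at hN hL ⊢
  have hLn : (L.subgroupOf K).Normal := ⟨fun x hx y => hL _ hx _ y.2⟩
  have hNn : (N.subgroupOf K).Normal := ⟨fun x hx y => hN _ hx _ y.2⟩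
  have hcN : ∀ x ∈ N.subgroupOf K, ∀ y ∈ N.subgroupOf K, ⁅x, y⁆ ∈ L.subgroupOf K := by
    intro x hx y hy
    exact hab _ hx _ hy
  -- the quotient by `N` is commutative
  have hcK : ∀ x y : K, ⁅x, y⁆ ∈ N.subgroupOf K := by
    have hg' : g ∈ K := by
      rw [hK]
      exact (le_sup_right : Subgroup.zpowers g ≤ N ⊔ Subgroup.zpowers g) (Subgroup.mem_zpowers g)
    have hgen : ∀ x : K, ∃ i : ℤ, ((QuotientGroup.mk x : K ⧸ N.subgroupOf K)) =
        (QuotientGroup.mk (⟨g, hg'⟩ : K)) ^ i := by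
      have h5 : (⊤ : Subgroup K) ≤
          (Subgroup.zpowers (QuotientGroup.mk (⟨g, hg'⟩ : K) : K ⧸ N.subgroupOf K)).comap
            (QuotientGroup.mk' _) := by
        have h6 : (⊤ : Subgroup K) = N.subgroupOf K ⊔ Subgroup.zpowers ⟨g, hg'⟩ := by
          apply Subgroup.map_injective K.subtype_injective
          rw [Subgroup.map_sup, Subgroup.map_subgroupOf_eq_of_le (by rw [hK]; exact le_sup_left),
            MonoidHom.map_zpowers, ← MonoidHom.range_eq_map, Subgroup.range_subtype]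
          exact hK
        rw [h6]
        refine sup_le ?_ ?_
        · intro x hx
          rw [Subgroup.mem_comap, QuotientGroup.mk'_apply, (QuotientGroup.eq_one_iff x).2 hx]
          exact one_mem _
        · rw [Subgroup.zpowers_le]
          exact Subgroup.mem_zpowers _
      intro x
      obtain ⟨i, hi⟩ := h5 (Subgroup.mem_top x)
      exact ⟨i, hi.symm⟩
    intro x y
    rw [← QuotientGroup.eq_one_iff]
    obtain ⟨i, hi⟩ := hgen x
    obtain ⟨j, hj⟩ := hgen y
    have h7 : ((⁅x, y⁆ : K) : K ⧸ N.subgroupOf K) =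
      ⁅(x : K ⧸ N.subgroupOf K), (y : K ⧸ N.subgroupOf K)⁆ := rfl
    rw [h7, hi, hj, commutatorElement_eq_one_iff_mul_comm, ← zpow_add, ← zpow_add, add_comm]
  refine ⟨K ⧸ L.subgroupOf K, inferInstance, QuotientGroup.mk' _, hM _ ?_, fun x => ?_⟩
  · have hn2 : ((N.subgroupOf K).map (QuotientGroup.mk' (L.subgroupOf K))).Normal :=
      Subgroup.Normal.map hNn _ (QuotientGroup.mk'_surjective _)
    refine metab ((N.subgroupOf K).map (QuotientGroup.mk' (L.subgroupOf K))) ?_ ?_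
    · rintro _ ⟨x, hx, rfl⟩ _ ⟨y, hy, rfl⟩
      rw [← commutatorElement_eq_one_iff_mul_comm, ← map_commutatorElement]
      exact (QuotientGroup.eq_one_iff _).2 (hcN x hx y hy)
    · intro x y
      obtain ⟨x, rfl⟩ := QuotientGroup.mk'_surjective _ x
      obtain ⟨y, rfl⟩ := QuotientGroup.mk'_surjective _ y
      rw [← map_commutatorElement]
      exact ⟨_, hcK x y, rfl⟩
  · exact QuotientGroup.eq_one_iff x

theorem abs (hM : ∀ (G : Type) [Group G], derivedSeries G 2 = ⊥ → C G) (k : ℕ)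
    {G V : Type} [Group G] [MulAction G V] {T : SimpleGraph V} {N : ℕ → V → Subgroup G}
    (h : Cf T N) (hab : ∀ i, i < k → (∀ v, ⁅N (i + 1) v, N (i + 1) v⁆ ≤ N i v) ∨
      ((∀ u v, T.Adj u v → ∀ x ∈ ⁅N (i + 1) u, N (i + 1) u⁆ ⊔ N i u, x • v = v → x ∈ N i u) ∧
      ∀ (v : V) (g : G), g • v = v → CQ C (N (i + 1) v ⊔ Subgroup.zpowers g) (N i v))) :
    Hs C T k N := by
  have hconj : ∀ i v (g : G), g • v = v → ∀ j, ∀ n ∈ N j v, ∀ x ∈ N i v ⊔ Subgroup.zpowers g,
      x * n * x⁻¹ ∈ N j v := by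
    intro i v g hg j n hn x hx
    have h1 : N i v ⊔ Subgroup.zpowers g ≤ MulAction.stabilizer G v :=
      sup_le (h.le_stab _ _) (by rw [Subgroup.zpowers_le]; exact hg)
    have h2 : x • v = v := h1 hx
    have h3 := (h.cmp j).eqv x v n hn
    rwa [h2] at h3
  refine ⟨?_, ?_⟩
  · intro i hi u v huv x hx hxv
    rcases hab i hi with h2 | ⟨h2, -⟩
    · exact (sup_le (h2 u) le_rfl) hx
    · exact h2 u v huv x hx hxv
  · intro i hi v g hg
    rcases hab i hi with h2 | ⟨-, h2⟩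
    · refine CQ_step hM (h.mono _ _) g (hconj _ v g hg _) (hconj _ v g hg _) ?_
      intro x hx y hy
      exact h2 v (Subgroup.commutator_mem_commutator hx hy)
    · exact h2 v g hg

/-- **series with commutative factors** -/
theorem solv (hC : ClosedE C) (hM : ∀ (G : Type) [Group G], derivedSeries G 2 = ⊥ → C G) (k : ℕ)
    {G V : Type} [Group G] [MulAction G V] {T : SimpleGraph V} (hT : T.IsTree)
    (hact : ∀ (g : G) (u v : V), T.Adj u v → T.Adj (g • u) (g • v)) {N : ℕ → V → Subgroup G}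
    (h : Cf T N) (hab : ∀ i, i < k → ∀ v, ∀ x ∈ N (i + 1) v, ∀ y ∈ N (i + 1) v, ⁅x, y⁆ ∈ N i v)
    (he : Ed C T k N) : C G :=
  series hC hM k hT hact h (abs hM k h fun i hi => Or.inl fun v =>
    Subgroup.commutator_le.2 fun x hx y hy => hab i hi v x hx y hy) he

section char

variable {G V : Type} [Group G] [MulAction G V]

/-- conjugation between the stabilizers -/
def cj (g : G) (v : V) : MulAction.stabilizer G v →* MulAction.stabilizer G (g • v) where
  toFun x := ⟨g * x * g⁻¹, by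
    have hx : (x : G) • v = v := x.2
    show (g * x * g⁻¹) • g • v = g • v
    rw [smul_smul, inv_mul_cancel_right, mul_smul, hx]⟩
  map_one' := Subtype.ext (by
    show g * 1 * g⁻¹ = 1
    group)
  map_mul' x y := Subtype.ext (by
    show g * ((x : G) * (y : G)) * g⁻¹ = g * (x : G) * g⁻¹ * (g * (y : G) * g⁻¹)
    group)

theorem cj_surj (g : G) (v : V) : Function.Surjective (cj g v) := by
  rintro ⟨y, hy⟩
  have hy' : y • g • v = g • v := hy
  refine ⟨⟨g⁻¹ * y * g, ?_⟩, Subtype.ext ?_⟩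
  · show (g⁻¹ * y * g) • v = v
    rw [mul_smul, mul_smul, hy', inv_smul_smul]
  · show g * (g⁻¹ * y * g) * g⁻¹ = y
    group

/-- a series of characteristic subgroups -/
theorem char (hC : ClosedE C) (hM : ∀ (G : Type) [Group G], derivedSeries G 2 = ⊥ → C G) (k : ℕ)
    {T : SimpleGraph V} (hT : T.IsTree)
    (hact : ∀ (g : G) (u v : V), T.Adj u v → T.Adj (g • u) (g • v))
    (F : ∀ v : V, ℕ → Subgroup (MulAction.stabilizer G v))
    (h0 : ∀ v, F v 0 = ⊥) (hk : ∀ v, F v k = ⊤) (hmono : ∀ v i, F v i ≤ F v (i + 1))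
    (heqv : ∀ (g : G) (v : V) i, (F v i).map (cj g v) ≤ F (g • v) i)
    (hab : ∀ v i, i < k → ∀ x ∈ F v (i + 1), ∀ y ∈ F v (i + 1), ⁅x, y⁆ ∈ F v i)
    (hcmp : ∀ u v, T.Adj u v → ∀ i, ∀ x : G, ∀ (hu : x ∈ MulAction.stabilizer G u)
      (hv : x ∈ MulAction.stabilizer G v), (⟨x, hu⟩ : MulAction.stabilizer G u) ∈ F u i →
      (⟨x, hv⟩ : MulAction.stabilizer G v) ∈ F v i) : C G := by
  have hcf : Cf T (fun i v => (F v i).map (MulAction.stabilizer G v).subtype) := by
    refine ⟨fun v => ?_, fun i v => Subgroup.map_mono (hmono v i), fun i => ⟨?_, ?_, ?_⟩⟩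
    · show (F v 0).map _ = ⊥
      rw [h0, Subgroup.map_bot]
    · rintro v _ ⟨x, -, rfl⟩
      exact x.2
    · rintro g v _ ⟨x, hx, rfl⟩
      exact ⟨cj g v x, heqv g v i ⟨x, hx, rfl⟩, rfl⟩
    · rintro u v huv _ ⟨x, hx, rfl⟩ hxv
      exact ⟨⟨x, hxv⟩, hcmp u v huv i x x.2 hxv hx, rfl⟩
  refine solv hC hM k hT hact hcf ?_ ⟨?_, ?_⟩
  · rintro i hi v _ ⟨x, hx, rfl⟩ _ ⟨y, hy, rfl⟩
    exact ⟨_, hab v i hi x hx y hy, rfl⟩
  · intro u v _ g hu _
    exact ⟨⟨g, hu⟩, by rw [hk]; exact Subgroup.mem_top _, rfl⟩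
  · intro v
    refine ⟨PUnit, inferInstance, 1, hM _ ?_, fun x => ?_⟩
    · exact Subsingleton.elim _ _
    · simp only [MonoidHom.one_apply, true_iff]
      exact ⟨x, by rw [hk]; exact Subgroup.mem_top _, rfl⟩

/-- **graphs of solvable groups** -/
theorem derived (hC : ClosedE C) (hM : ∀ (G : Type) [Group G], derivedSeries G 2 = ⊥ → C G) (k : ℕ)
    {T : SimpleGraph V} (hT : T.IsTree)
    (hact : ∀ (g : G) (u v : V), T.Adj u v → T.Adj (g • u) (g • v))
    (hk : ∀ v : V, derivedSeries (MulAction.stabilizer G v) k = ⊥)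
    (hcmp : ∀ u v, T.Adj u v → ∀ i, ∀ x : G, ∀ (hu : x ∈ MulAction.stabilizer G u)
      (hv : x ∈ MulAction.stabilizer G v),
      (⟨x, hu⟩ : MulAction.stabilizer G u) ∈ derivedSeries (MulAction.stabilizer G u) i →
      (⟨x, hv⟩ : MulAction.stabilizer G v) ∈ derivedSeries (MulAction.stabilizer G v) i) : C G := by
  refine char hC hM k hT hact (fun v i => derivedSeries (MulAction.stabilizer G v) (k - i)) hk ?_ ?_
    ?_ ?_ ?_
  · intro v
    show derivedSeries _ (k - k) = ⊤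
    rw [Nat.sub_self, derivedSeries_zero]
  · intro v i
    exact derivedSeries_antitone _ (by omega)
  · intro g v i
    rw [map_derivedSeries_eq (cj_surj g v)]
  · intro v i hi x hx y hy
    have : k - i = (k - (i + 1)) + 1 := by omega
    show ⁅x, y⁆ ∈ derivedSeries _ (k - i)
    rw [this, derivedSeries_succ]
    exact Subgroup.commutator_mem_commutator hx hy
  · intro u v huv i x hu hv h
    exact hcmp u v huv _ x hu hv h

/-- **graphs of nilpotent groups** -/
theorem central (hC : ClosedE C) (hM : ∀ (G : Type) [Group G], derivedSeries G 2 = ⊥ → C G) (k : ℕ)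
    {T : SimpleGraph V} (hT : T.IsTree)
    (hact : ∀ (g : G) (u v : V), T.Adj u v → T.Adj (g • u) (g • v))
    (hk : ∀ v : V, Subgroup.upperCentralSeries (MulAction.stabilizer G v) k = ⊤)
    (hcmp : ∀ u v, T.Adj u v → ∀ i, ∀ x : G, ∀ (hu : x ∈ MulAction.stabilizer G u)
      (hv : x ∈ MulAction.stabilizer G v),
      (⟨x, hu⟩ : MulAction.stabilizer G u) ∈ Subgroup.upperCentralSeries (MulAction.stabilizer G u) i →
      (⟨x, hv⟩ : MulAction.stabilizer G v) ∈ Subgroup.upperCentralSeries (MulAction.stabilizer G v) i) :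
    C G := by
  refine char hC hM k hT hact (fun v i => Subgroup.upperCentralSeries (MulAction.stabilizer G v) i)
    (fun v => Subgroup.upperCentralSeries_zero _) hk ?_ ?_ ?_ ?_
  · intro v i
    exact Subgroup.upperCentralSeries_mono _ (Nat.le_succ i)
  · intro g v i
    exact Subgroup.upperCentralSeries.map (cj_surj g v) i
  · intro v i hi x hx y hy
    have h1 := (Subgroup.mem_upperCentralSeries_succ_iff).1 hx y
    exact h1
  · intro u v huv i x hu hv h
    exact hcmp u v huv _ x hu hv h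

end char

end Pool.Agent.Zk85.CS
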