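import Pool.Agent.Zk85.CS.Dat
import Pool.Agent.N431.CE.Fin

/-!
# Isolated edge groups, relative form
-/

set_option autoImplicit false

namespace Pool.Agent.Zk85.CS

open SimpleGraph
open Subgroup
open Subgroup.Commensurable (commensurator)
open Pool.Agent.Y110.FJ (ClosedE)
open Pool.Agent.N509.TK
open Pool.Agent.N509.TX (AcylF C_edge STree cyl_subtree C_stab)
open Pool.Agent.N431.CE
open Pool.Agent.R941.FJ (C_equiv C_le)

variable {C : ∀ (G : Type) [Group G], Prop}
variable {G V : Type} [Group G] [MulAction G V] {T : SimpleGraph V}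

/-- the relative condition at an edge with an infinite stabilizer -/
def NC (C : ∀ (G : Type) [Group G], Prop) (G : Type) {V : Type} [Group G] [MulAction G V]
    (T : SimpleGraph V) (v u : V) : Prop :=
  ∃ (P : Type) (_ : Group P) (f : commensurator (Es G v u) →* P) (N : Subgroup G),
    C P ∧ N ≤ Kv f v ∧
    (∀ g ∈ commensurator (Es G v u), g • v = v → ∀ n ∈ N, g * n * g⁻¹ ∈ N) ∧
    (∀ u', T.Adj v u' → Commensurable (Es G v u) (Es G v u') →
      Es G v u' ⊓ Kv f v ≤ N ∧ Es G v u' ⊓ ⁅N, N⁆ = ⊥) ∧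
    ∀ g ∈ commensurator (Es G v u), g • v = v → CQ C (Kv f v ⊔ Subgroup.zpowers g) N

theorem Kv_sub {v : V} {K : Subgroup G} {E : Subgroup G} (hle : K ≤ commensurator E)
    {P : Type} [Group P] (f : commensurator E →* P) {g : K} (hg : (g : G) • v = v)
    (hf : (f.comp (Subgroup.inclusion hle)) g = 1) : (g : G) ∈ Kv f v :=
  ⟨hg, ⟨Subgroup.inclusion hle g, hf, rfl⟩⟩

theorem Kv_f {v : V} {K : Subgroup G} {E : Subgroup G} (hle : K ≤ commensurator E)
    {P : Type} [Group P] (f : commensurator E →* P) {g : K} (hg : (g : G) ∈ Kv f v) :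
    (f.comp (Subgroup.inclusion hle)) g = 1 := by
  obtain ⟨-, x, hx, hxg⟩ := hg
  have h1 : x = Subgroup.inclusion hle g := Subtype.ext hxg
  show f (Subgroup.inclusion hle g) = 1
  rw [← h1]
  exact hx

/-- **isolated edge groups, relative form** -/
theorem isol (hC : ClosedE C) (hM : ∀ (G : Type) [Group G], derivedSeries G 2 = ⊥ → C G)
    (hA : AcylF C) (hT : T.IsTree) (hact : ∀ (g : G) (u v : V), T.Adj u v → T.Adj (g • u) (g • v))
    (hV : ∀ v : V, C ↥(MulAction.stabilizer G v)) (n : ℕ)
    (hint : ∀ v a b, T.Adj v a → T.Adj v b → a ≠ b →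
      (Infinite (Es G v a) ∧ Infinite (Es G v b) ∧ Commensurable (Es G v a) (Es G v b)) ∨
      ∀ F : Finset G, (∀ g ∈ F, g ∈ Es G v a ∧ g ∈ Es G v b) → F.card ≤ n)
    (hE : ∀ v u : V, T.Adj v u → Infinite (Es G v u) → EC C G v u ∨ NC C G T v u) : C G := by
  classical
  refine cylF hC hA hT hact (rf_LR (T := T)) n ?_ hV fun y K hK => ?_
  · intro w a b ha hb hab F hF
    rcases hint w a b ha hb (fun h => hab (Or.inl h)) with h | h
    · exact absurd (Or.inr h) hab
    · exact h F fun g hg => ⟨⟨(hF g hg).1, (hF g hg).2.1⟩, ⟨(hF g hg).1, (hF g hg).2.2⟩⟩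
  obtain ⟨W, _, T', ι, hS, hcyl⟩ := cyl_subtree hT hact (rf_LR (T := T)) y K hK
  obtain ⟨⟨⟨v0, a0⟩, h0⟩, hy⟩ := Quotient.exists_rep y
  have h0 : T.Adj v0 a0 := h0
  have hy : cy (rf G) h0 = y := hy
  by_cases hinf : Infinite (Es G v0 a0)
  · refine local_data (G := K) hC hM hS.tree hS.act ?_ ?_
    · intro w
      rw [hS.stab]
      exact C_stab hC K (ι w) (hV _)
    · intro w F hF
      have hadj : ∀ u ∈ F, T.Adj (ι w) (ι u) := fun u hu => hS.adj _ _ (hF u hu)
      have hcy : ∀ u (hu : u ∈ F), cy (rf G) (hadj u hu) = y := fun u hu =>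
        hcyl _ _ (hF u hu) (hadj u hu)
      have hR : ∀ u (hu : u ∈ F), Rf G (v0, a0) (ι w, ι u) := fun u hu =>
        Rf_gen (p := dt h0) (q := dt (hadj u hu)) (Quotient.exact (hy.trans (hcy u hu).symm))
      have hR' : ∀ u (hu : u ∈ F) u' (hu' : u' ∈ F), Rf G (ι w, ι u) (ι w, ι u') :=
        fun u hu u' hu' => Rf_gen (p := dt (hadj u hu)) (q := dt (hadj u' hu'))
          (Quotient.exact ((hcy u hu).trans (hcy u' hu').symm))
      have hle : ∀ u ∈ F, K ≤ commensurator (Es G (ι w) (ι u)) := by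
        intro u hu g hg
        rw [Commensurable.commensurator_mem_iff, ← Es_smul]
        have h3 : cy (rf G) (hact g _ _ (hadj u hu)) = cy (rf G) (hadj u hu) :=
          (hK g hg _ _ (hadj u hu) (hcy u hu)).trans (hcy u hu).symm
        exact (Rf_gen (p := dt (hact g _ _ (hadj u hu))) (q := dt (hadj u hu))
          (Quotient.exact h3)).comm
      have hfix : ∀ (g : K) (x : W), g • x = x ↔ (g : G) • ι x = ι x := fun g x => hS.fix
      by_cases hN : ∃ u ∈ F, NC C G T (ι w) (ι u)
      · obtain ⟨u0, hu0, P, _, f, N, hP, h1, h2, h3, h4⟩ := hN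
        have hco : ∀ u ∈ F, Commensurable (Es G (ι w) (ι u0)) (Es G (ι w) (ι u)) :=
          fun u hu => (hR' u0 hu0 u hu).comm
        refine ⟨P, _, f.comp (Subgroup.inclusion (hle u0 hu0)), N.comap K.subtype, hP,
          ?_, ?_, ?_, ?_, ?_⟩
        · intro x hx
          have h5 := h1 hx
          exact ⟨(hfix x w).2 h5.1, Kv_f (hle u0 hu0) f h5⟩
        · intro g hg x hx
          exact h2 g (hle u0 hu0 g.2) ((hfix g w).1 hg) x hx
        · intro u hu g hgw hgu hg
          exact (h3 (ι u) (hadj u hu) (hco u hu)).1 ⟨⟨(hfix g w).1 hgw, (hfix g u).1 hgu⟩,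
            Kv_sub (hle u0 hu0) f ((hfix g w).1 hgw) hg⟩
        · intro u hu g hg hgu
          have h5 : (g : G) ∈ ⁅N, N⁆ := by
            have h6 : (⁅N.comap K.subtype, N.comap K.subtype⁆).map K.subtype ≤ ⁅N, N⁆ := by
              rw [Subgroup.map_commutator]
              exact Subgroup.commutator_mono (Subgroup.map_comap_le _ _)
                (Subgroup.map_comap_le _ _)
            exact h6 ⟨g, hg, rfl⟩
          have h6 : (g : G) ∈ Es G (ι w) (ι u) ⊓ ⁅N, N⁆ :=
            ⟨⟨(h1 (N.commutator_le_self h5)).1, (hfix g u).1 hgu⟩, h5⟩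
          rw [(h3 (ι u) (hadj u hu) (hco u hu)).2] at h6
          exact Subtype.ext h6
        · intro g hg
          obtain ⟨Z, _, φ, hZ, hφ⟩ := h4 g (hle u0 hu0 g.2) ((hfix g w).1 hg)
          have hmem : ∀ x ∈ Sb (f.comp (Subgroup.inclusion (hle u0 hu0))).ker w ⊔
              Subgroup.zpowers g, (x : G) ∈ Kv f (ι w) ⊔ Subgroup.zpowers (g : G) := by
            have h5 : Sb (f.comp (Subgroup.inclusion (hle u0 hu0))).ker w ⊔
                Subgroup.zpowers g ≤ (Kv f (ι w) ⊔ Subgroup.zpowers (g : G)).comap K.subtype := by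
              refine sup_le ?_ ?_
              · rintro x ⟨hx1, hx2⟩
                exact (le_sup_left : Kv f (ι w) ≤ _)
                  (Kv_sub (hle u0 hu0) f ((hfix x w).1 hx1) hx2)
              · rw [Subgroup.zpowers_le]
                exact (le_sup_right : Subgroup.zpowers _ ≤ _) (Subgroup.mem_zpowers _)
            exact fun x hx => h5 hx
          let c : ↥(Sb (f.comp (Subgroup.inclusion (hle u0 hu0))).ker w ⊔ Subgroup.zpowers g) →*
              ↥(Kv f (ι w) ⊔ Subgroup.zpowers (g : G)) :=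
            { toFun := fun x => ⟨((x : K) : G), hmem x x.2⟩
              map_one' := rfl
              map_mul' := fun x y => rfl }
          exact ⟨Z, inferInstance, φ.comp c, hZ, fun x => hφ (c x)⟩
      · -- one homomorphism for each edge
        have hex : ∀ u : W, ∃ (P : Type) (_ : Group P) (f : K →* P), C P ∧
            (u ∈ F → ∀ x ∈ ⁅Sb f.ker w, Sb f.ker w⁆, x • u = u → x = 1) := by
          intro u
          by_cases hu : u ∈ F
          · have h1 : Infinite (Es G (ι w) (ι u)) := (hR u hu).inf hinf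
            rcases hE _ _ (hadj u hu) h1 with h2 | h2
            · obtain ⟨P, _, f, hP, hf⟩ := h2.ex hC hM
              refine ⟨P, _, f.comp (Subgroup.inclusion (hle u hu)), hP, fun _ x hx hxu => ?_⟩
              obtain ⟨S, hSd⟩ : ∃ S : Subgroup K,
                S = Sb (f.comp (Subgroup.inclusion (hle u hu))).ker w := ⟨_, rfl⟩
              rw [← hSd] at hx
              have hSK : S.map K.subtype ≤ Kv f (ι w) := by
                rw [hSd]
                rintro _ ⟨g, hg, rfl⟩
                exact Kv_sub (hle u hu) f ((hfix g w).1 hg.1) hg.2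
              have hxS : (x : G) ∈ ⁅Kv f (ι w), Kv f (ι w)⁆ := by
                have h1 : (x : G) ∈ (⁅S, S⁆).map K.subtype := ⟨x, hx, rfl⟩
                rw [Subgroup.map_commutator] at h1
                exact Subgroup.commutator_mono hSK hSK h1
              have hxv : (x : G) • ι w = ι w := by
                have h1 := S.commutator_le_self hx
                rw [hSd] at h1
                exact (hfix x w).1 h1.1
              have h3 : (x : G) ∈ Es G (ι w) (ι u) ⊓ ⁅Kv f (ι w), Kv f (ι w)⁆ :=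
                ⟨⟨hxv, (hfix x u).1 hxu⟩, hxS⟩
              rw [hf] at h3
              exact Subtype.ext h3
            · exact absurd ⟨u, hu, h2⟩ hN
          · exact ⟨Multiplicative ℤ, inferInstance, 1, hC.base.int, fun h => absurd h hu⟩
        choose P iP f hP hf using hex
        obtain ⟨Q, _, φ, hQ, hφ⟩ := fin_prod hC F P f fun v _ => hP v
        refine ⟨Q, _, φ, Sb φ.ker w, hQ, le_rfl, ?_, ?_, ?_, ?_⟩
        · intro g hg x hx
          exact ⟨by
            have hx1 : x • w = w := hx.1
            have hg1 : g⁻¹ • w = w := by rw [inv_smul_eq_iff]; exact hg.symm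
            show (g * x * g⁻¹) • w = w
            rw [mul_smul, mul_smul, hg1, hx1, hg], (MonoidHom.normal_ker φ).conj_mem x hx.2 g⟩
        · intro u _ g hgw _ hg
          exact ⟨hgw, hg⟩
        · intro u hu g hg hgu
          exact hf u hu g (Subgroup.commutator_mono (Sb_mono (hφ u hu) w) (Sb_mono (hφ u hu) w) hg)
            hgu
        · intro g hg
          refine ⟨Q, inferInstance, φ.comp (Subgroup.subtype _), hQ, fun x => ?_⟩
          have h1 : Sb φ.ker w ⊔ Subgroup.zpowers g ≤ MulAction.stabilizer K w :=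
            sup_le inf_le_left (by rw [Subgroup.zpowers_le]; exact hg)
          exact ⟨fun h => ⟨h1 x.2, h⟩, fun h => h.2⟩
  · refine C_edge hC v0 a0 (hV v0) K fun g hg => ?_
    have h1 := hK g hg v0 a0 h0 hy
    rcases Rf_gen (p := dt (hact g v0 a0 h0)) (q := dt h0) (Quotient.exact (h1.trans hy.symm)) with
      (h | h) | ⟨_, h, _⟩
    · exact Or.inl ⟨(congrArg Prod.fst h).symm, (congrArg Prod.snd h).symm⟩
    · exact Or.inr ⟨(congrArg Prod.snd h).symm, (congrArg Prod.fst h).symm⟩
    · exact absurd h hinf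

end Pool.Agent.Zk85.CS
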