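import Pool.Agent.Zk85.CS.Ab

/-!
# A compatible family relative to a homomorphism
-/

set_option autoImplicit false

namespace Pool.Agent.Zk85.CS

open SimpleGraph
open Pool.Agent.Y110.FJ (ClosedE)
open Pool.Agent.N509.TK
open Pool.Agent.R941.FJ (C_equiv C_le)

variable {C : ∀ (G : Type) [Group G], Prop}

section

variable {G V : Type} [Group G] [MulAction G V] {T : SimpleGraph V}

/-- the series of length one -/
def one (N : V → Subgroup G) : ℕ → V → Subgroup G := fun i v => if i = 0 then ⊥ else N v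

theorem one_zero (N : V → Subgroup G) (v : V) : one N 0 v = ⊥ := rfl

theorem one_succ (N : V → Subgroup G) (i : ℕ) (v : V) : one N (i + 1) v = N v := rfl

theorem Cmp.one {N : V → Subgroup G} (hN : Cmp T N) : Cf T (one N) := by
  refine ⟨fun _ => rfl, fun i v => ?_, fun i => ?_⟩
  · cases i with
    | zero => rw [one_zero]; exact bot_le
    | succ i => rw [one_succ, one_succ]
  · cases i with
    | zero =>
      refine ⟨?_, ?_, ?_⟩
      · intro v n hn
        rw [one_zero, Subgroup.mem_bot] at hn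
        rw [hn, one_smul]
      · intro g v n hn
        rw [one_zero, Subgroup.mem_bot] at hn
        rw [one_zero, Subgroup.mem_bot, hn]
        group
      · intro u v _ n hn _
        rw [one_zero, Subgroup.mem_bot] at hn
        rw [one_zero, Subgroup.mem_bot, hn]
    | succ i => exact hN

/-- **the quotient by a compatible family contained in the kernel of a homomorphism** -/
theorem quot_rel (hC : ClosedE C) (hT : T.IsTree)
    (hact : ∀ (g : G) (u v : V), T.Adj u v → T.Adj (g • u) (g • v))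
    {N : V → Subgroup G} (hN : Cmp T N) {P : Type} [Group P] (f : G →* P) (hP : C P)
    (hf : ∀ v, N v ≤ f.ker)
    (he : ∀ u v, T.Adj u v → ∀ g : G, g • u = u → g • v = v → f g = 1 → g ∈ N u)
    (ht : ∀ (v : V) (g : G), g • v = v → CQ C (Sb f.ker v ⊔ Subgroup.zpowers g) (N v))
    [hn : (⨆ v, N v).Normal] : C (G ⧸ ⨆ v, N v) := by
  have hcf := hN.one
  obtain ⟨M, hMd⟩ : ∃ M, M = ⨆ v, N v := ⟨_, rfl⟩
  have hMn : M.Normal := by
    rw [hMd]
    exact hN.normal
  have hMd' : M = ⨆ v, one N 1 v := hMd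
  have hMf : M ≤ f.ker := by
    rw [hMd]
    exact iSup_le hf
  obtain ⟨S, hS'⟩ := Tv.exists (R := N) hT
  have hS : Tq T M S := by
    rw [hMd]
    exact hN.tq hT hact hS'
  refine C_of_eq hMd ?_
  let _ := qa hS
  obtain ⟨F, hF⟩ : ∃ F : G ⧸ M →* P, ∀ x : G, F (QuotientGroup.mk' M x) = f x :=
    ⟨QuotientGroup.lift M f hMf, fun x => rfl⟩
  refine crit hC (hS.isTree hT) ?_ F hP ?_ ?_
  · intro q s t hst
    obtain ⟨g, rfl⟩ := QuotientGroup.mk_surjective q
    exact sm_adj hact hS g s t hst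
  · intro s t hst g hgs hgt hgf
    obtain ⟨x, rfl⟩ := QuotientGroup.mk'_surjective M g
    obtain ⟨y, hy1, hy2⟩ := lift_fix hS (x := x) (s := s) hgs
    have hyt : sm hS y t = t := by
      have : (QuotientGroup.mk' M y) • t = t := by rw [hy1]; exact hgt
      exact this
    obtain ⟨r, hr, h3⟩ := lift_edge hT hact hcf hMd' hS hst hy2 hyt
    have hr' : r ∈ N (s : V) := hr
    have h4 : (r⁻¹ * y) • (s : V) = s := by
      have h5 := hN.fix _ _ hr'
      rw [mul_smul, hy2, inv_smul_eq_iff, h5]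
    have h5 : f (r⁻¹ * y) = 1 := by
      have h6 : f r = 1 := hf _ hr'
      have h7 : f y = 1 := by rw [← hF, hy1, hgf]
      rw [map_mul, map_inv, h6, h7, inv_one, one_mul]
    have h6 := he _ _ hst _ h4 h3 h5
    have h7 : (QuotientGroup.mk' M) (r⁻¹ * y) = 1 := by
      refine (QuotientGroup.eq_one_iff _).2 ?_
      rw [hMd]
      exact le_iSup N _ h6
    rw [map_mul, Cf.mk_inv hMd' hr, one_mul, hy1] at h7
    exact h7
  · intro s g hg
    obtain ⟨x, rfl⟩ := QuotientGroup.mk'_surjective M g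
    obtain ⟨y, hy1, hy2⟩ := lift_fix hS (x := x) (s := s) hg
    have h1 := (ht s y hy2).map M (fun n hn => (le_sup_left : Sb f.ker (s : V) ≤
      Sb f.ker (s : V) ⊔ Subgroup.zpowers y) ⟨hN.fix _ _ hn, hf _ hn⟩) (by
        intro x hx hx'
        have h2 : Sb f.ker (s : V) ⊔ Subgroup.zpowers y ≤ MulAction.stabilizer G (s : V) :=
          sup_le inf_le_left (by rw [Subgroup.zpowers_le]; exact hy2)
        exact hst hT hact hcf hMd' hx (h2 hx'))
    have h2 : (N (s : V)).map (QuotientGroup.mk' M) = ⊥ := by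
      rw [eq_bot_iff]
      rintro _ ⟨x, hx, rfl⟩
      refine (QuotientGroup.eq_one_iff _).2 ?_
      rw [hMd]
      exact le_iSup N _ hx
    rw [h2] at h1
    refine C_le hC.base (sup_le ?_ ?_) (h1.bot hC)
    · rintro z ⟨hz1, hz2⟩
      obtain ⟨z, rfl⟩ := QuotientGroup.mk'_surjective M z
      obtain ⟨w, hw1, hw2⟩ := lift_fix hS (x := z) (s := s) hz1
      refine ⟨w, (le_sup_left : Sb f.ker (s : V) ≤
        Sb f.ker (s : V) ⊔ Subgroup.zpowers y) ⟨hw2, ?_⟩, hw1⟩
      have h3 : F (QuotientGroup.mk' M z) = 1 := hz2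
      show f w = 1
      rw [← hF, hw1, h3]
    · rw [Subgroup.zpowers_le]
      exact ⟨y, (le_sup_right : Subgroup.zpowers y ≤ Sb f.ker (s : V) ⊔ Subgroup.zpowers y)
        (Subgroup.mem_zpowers y), hy1⟩

/-- **a compatible family relative to a homomorphism** -/
theorem rel (hC : ClosedE C) (hM : ∀ (G : Type) [Group G], derivedSeries G 2 = ⊥ → C G)
    (hT : T.IsTree) (hact : ∀ (g : G) (u v : V), T.Adj u v → T.Adj (g • u) (g • v))
    (hV : ∀ v : V, C ↥(MulAction.stabilizer G v))
    {N : V → Subgroup G} {P : Type} [Group P] (f : G →* P) (hP : C P)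
    (hfix : ∀ v, N v ≤ Sb f.ker v) (heqv : ∀ (g : G) (v : V), ∀ n ∈ N v, g * n * g⁻¹ ∈ N (g • v))
    (he : ∀ u v, T.Adj u v → ∀ g : G, g • u = u → g • v = v → f g = 1 → g ∈ N u)
    (hd : ∀ u v, T.Adj u v → ∀ g ∈ ⁅N u, N u⁆, g • v = v → g = 1)
    (ht : ∀ (v : V) (g : G), g • v = v → CQ C (Sb f.ker v ⊔ Subgroup.zpowers g) (N v)) : C G := by
  have hN : Cmp T N := ⟨fun v n hn => (hfix v hn).1, heqv, fun u v huv n hn hnv =>
    he v u huv.symm n hnv (hfix u hn).1 (hfix u hn).2⟩
  have hn : (⨆ v, N v).Normal := hN.normal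
  have hn' : (⨆ v, one N 1 v).Normal := hn
  refine relative hC hM 1 G V T hT hact (one N) hN.one ⟨?_, ?_⟩
    (quot_rel hC hT hact hN f hP (fun v x hx => (hfix v hx).2) he ht)
  · intro i hi u v huv x hx hxv
    obtain rfl : i = 0 := by omega
    rw [one_zero, sup_bot_eq] at hx
    rw [one_zero, Subgroup.mem_bot]
    exact hd u v huv x hx hxv
  · intro i hi v g hg
    obtain rfl : i = 0 := by omega
    refine ⟨_, inferInstance, MonoidHom.id _, C_le hC.base (sup_le ?_ ?_) (hV v), fun x => ?_⟩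
    · exact fun x hx => (hfix v hx).1
    · rw [Subgroup.zpowers_le]
      exact hg
    · rw [one_zero, Subgroup.mem_bot]
      exact ⟨fun h => congrArg Subtype.val h, fun h => Subtype.ext h⟩

end

end Pool.Agent.Zk85.CS
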