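import Pool.Agent.Zk85.CS.Cmp

/-!
# Compatible series in the vertex groups
-/

set_option autoImplicit false

namespace Pool.Agent.Zk85.CS

open SimpleGraph
open Pool.Agent.Y110.FJ (ClosedE)
open Pool.Agent.N509.TK
open Pool.Agent.R941.FJ (C_equiv C_le)

/-- there is a homomorphism from `H` to a group in the class whose kernel is `H ⊓ K` -/
def CQ (C : ∀ (G : Type) [Group G], Prop) {G : Type} [Group G] (H K : Subgroup G) : Prop :=
  ∃ (P : Type) (_ : Group P) (φ : H →* P), C P ∧ ∀ x : H, φ x = 1 ↔ (x : G) ∈ K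

variable {C : ∀ (G : Type) [Group G], Prop}

theorem CQ.bot (hC : ClosedE C) {G : Type} [Group G] {H : Subgroup G} (h : CQ C H ⊥) : C H := by
  obtain ⟨P, _, φ, hP, hφ⟩ := h
  refine hC.base.of_injective _ _ φ ((injective_iff_map_eq_one φ).2 fun x hx => ?_) hP
  exact Subtype.ext (Subgroup.mem_bot.1 ((hφ x).1 hx))

theorem CQ.map {G : Type} [Group G] {H K : Subgroup G} (M : Subgroup G) [M.Normal]
    (h : CQ C H K) (hKH : K ≤ H) (hM : ∀ x ∈ M, x ∈ H → x ∈ K) :
    CQ C (H.map (QuotientGroup.mk' M)) (K.map (QuotientGroup.mk' M)) := by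
  obtain ⟨P, _, φ, hP, hφ⟩ := h
  obtain ⟨ψ, hψ⟩ : ∃ ψ : H →* H.map (QuotientGroup.mk' M), ψ = (QuotientGroup.mk' M).subgroupMap H :=
    ⟨_, rfl⟩
  have hs : Function.Surjective ψ := by
    rw [hψ]
    exact (QuotientGroup.mk' M).subgroupMap_surjective H
  have hv : ∀ x : H, ((ψ x : H.map (QuotientGroup.mk' M)) : G ⧸ M) = QuotientGroup.mk' M (x : G) := by
    intro x
    rw [hψ]
    rfl
  have hker : ψ.ker ≤ φ.ker := by
    intro x hx
    have h1 : ψ x = 1 := hx
    have h2 : QuotientGroup.mk' M (x : G) = 1 := by rw [← hv, h1]; rfl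
    have h3 : (x : G) ∈ M := (QuotientGroup.eq_one_iff _).1 h2
    exact (hφ x).2 (hM _ h3 x.2)
  refine ⟨P, inferInstance, MonoidHom.liftOfSurjective ψ hs ⟨φ, hker⟩, hP, fun y => ?_⟩
  obtain ⟨x, rfl⟩ := hs y
  have h1 : (MonoidHom.liftOfSurjective ψ hs ⟨φ, hker⟩) (ψ x) = φ x :=
    MonoidHom.liftOfRightInverse_comp_apply ψ _ _ ⟨φ, hker⟩ x
  rw [h1, hφ, hv]
  constructor
  · intro h
    exact ⟨x, h, rfl⟩
  · rintro ⟨k, hk, hkx⟩
    have h2 : k⁻¹ * (x : G) ∈ M := QuotientGroup.eq.1 hkx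
    have h3 := hM _ h2 (mul_mem (inv_mem (hKH hk)) x.2)
    have := mul_mem hk h3
    rwa [mul_inv_cancel_left] at this

theorem CQ.of_injective (hC : ClosedE C) {G : Type} [Group G] {H K H' : Subgroup G} (h : CQ C H K)
    (hH : H' ≤ H) : CQ C H' K := by
  obtain ⟨P, _, φ, hP, hφ⟩ := h
  exact ⟨P, inferInstance, φ.comp (Subgroup.inclusion hH), hP, fun x => hφ ⟨x, hH x.2⟩⟩

section

variable {G V : Type} [Group G] [MulAction G V] {T : SimpleGraph V}

/-- increasing compatible families -/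
structure Cf (T : SimpleGraph V) (N : ℕ → V → Subgroup G) : Prop where
  zero : ∀ v, N 0 v = ⊥
  mono : ∀ i v, N i v ≤ N (i + 1) v
  cmp : ∀ i, Cmp T (N i)

/-- the conditions on the factors -/
structure Hs (C : ∀ (G : Type) [Group G], Prop) (T : SimpleGraph V) (k : ℕ)
    (N : ℕ → V → Subgroup G) : Prop where
  hom : ∀ i, i < k → ∀ u v, T.Adj u v → ∀ x ∈ ⁅N (i + 1) u, N (i + 1) u⁆ ⊔ N i u, x • v = v →
    x ∈ N i u
  step : ∀ i, i < k → ∀ (v : V) (g : G), g • v = v →
    CQ C (N (i + 1) v ⊔ Subgroup.zpowers g) (N i v)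

/-- the edge groups are contained in the last groups, and the quotients of the vertex groups are in the
class -/
structure Ed (C : ∀ (G : Type) [Group G], Prop) (T : SimpleGraph V) (k : ℕ)
    (N : ℕ → V → Subgroup G) : Prop where
  edge : ∀ u v, T.Adj u v → ∀ g : G, g • u = u → g • v = v → g ∈ N k u
  top : ∀ v, CQ C (MulAction.stabilizer G v) (N k v)

variable {N : ℕ → V → Subgroup G} {k : ℕ}

theorem Cf.mono' (h : Cf T N) (i : ℕ) (v : V) : N 1 v ≤ N (i + 1) v := by
  induction i with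
  | zero => exact le_rfl
  | succ i ih => exact ih.trans (h.mono _ v)

theorem Cf.le_stab (h : Cf T N) (i : ℕ) (v : V) : N i v ≤ MulAction.stabilizer G v :=
  fun _ hx => (h.cmp i).fix v _ hx

section quot

variable {S : Set V} {M : Subgroup G} [M.Normal]

/-- elements of the quotient which fix a vertex -/
theorem lift_fix (hS : Tq T M S) {x : G} {s : S} (h : sm hS x s = s) :
    ∃ y : G, (QuotientGroup.mk' M) y = (QuotientGroup.mk' M) x ∧ y • (s : V) = s := by
  obtain ⟨m, hm, h1⟩ := sm_spec hS x s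
  rw [h] at h1
  refine ⟨m⁻¹ * x, ?_, by rw [mul_smul, h1, inv_smul_smul]⟩
  rw [map_mul]
  have : (QuotientGroup.mk' M) m⁻¹ = 1 := (QuotientGroup.eq_one_iff _).2 (inv_mem hm)
  rw [this, one_mul]

/-- elements of the quotient which fix an edge -/
theorem lift_edge (hT : T.IsTree)
    (hact : ∀ (g : G) (u v : V), T.Adj u v → T.Adj (g • u) (g • v)) (h : Cf T N)
    (hM : M = ⨆ v, N 1 v) (hS : Tq T M S) {n : G} {s t : S} (hst : T.Adj (s : V) t)
    (hn : n • (s : V) = s) (ht : sm hS n t = t) : ∃ r ∈ N 1 (s : V), (r⁻¹ * n) • (t : V) = t := by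
  obtain ⟨m, hm, h1⟩ := sm_spec hS n t
  rw [ht] at h1
  have h2 := hact n _ _ hst
  rw [hn] at h2
  obtain ⟨u, hu, h3, r, hr, h4, h5⟩ := hS.max _ s.2 _ h2
  have h6 : (⟨u, hu⟩ : S) = t := quq hS hr hm (h5.trans h1)
  have h7 : u = (t : V) := congrArg Subtype.val h6
  rw [h7] at h5
  refine ⟨r, ?_, by rw [mul_smul, ← h5, inv_smul_smul]⟩
  rw [hM] at hr
  exact (h.cmp 1).stab hT hact hr h4

omit [M.Normal] in
theorem Cf.mk_inv [M.Normal] (hM : M = ⨆ v, N 1 v) {s : V} {r : G} (hr : r ∈ N 1 s) :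
    (QuotientGroup.mk' M) r⁻¹ = 1 :=
  (QuotientGroup.eq_one_iff _).2 (inv_mem (by rw [hM]; exact le_iSup (N 1) s hr))

theorem hst (hT : T.IsTree)
    (hact : ∀ (g : G) (u v : V), T.Adj u v → T.Adj (g • u) (g • v)) (h : Cf T N)
    (hM : M = ⨆ v, N 1 v) {x : G} (hx : x ∈ M) {v : V} (hv : x • v = v) : x ∈ N 1 v := by
  rw [hM] at hx
  exact (h.cmp 1).stab hT hact hx hv

theorem hfix (hS : Tq T M S) {x : G} {s : S} (hx : x • (s : V) = s) : sm hS x s = s :=
  sm_eq hS (one_mem _) (by rw [hx, one_smul])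

theorem hedge (hT : T.IsTree)
    (hact : ∀ (g : G) (u v : V), T.Adj u v → T.Adj (g • u) (g • v)) (h : Cf T N)
    (hM : M = ⨆ v, N 1 v) (hS : Tq T M S) (i : ℕ) {s t : S} (hadj : T.Adj (s : V) t) {n : G}
    (hn : n ∈ N (i + 1) (s : V)) (ht : sm hS n t = t) :
    ∃ n' ∈ N (i + 1) (s : V), (QuotientGroup.mk' M) n' = (QuotientGroup.mk' M) n ∧
      n' • (t : V) = t := by
  obtain ⟨r, hr, h1⟩ := lift_edge hT hact h hM hS hadj ((h.cmp _).fix _ _ hn) ht
  refine ⟨r⁻¹ * n, mul_mem (inv_mem (h.mono' i _ hr)) hn, ?_, h1⟩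
  rw [map_mul, Cf.mk_inv hM hr, one_mul]

theorem Cf.quot (hT : T.IsTree)
    (hact : ∀ (g : G) (u v : V), T.Adj u v → T.Adj (g • u) (g • v)) (h : Cf T N)
    (hM : M = ⨆ v, N 1 v) (hS : Tq T M S) :
    @Cf (G ⧸ M) S _ (qa hS) (T.induce S)
      (fun i s => (N (i + 1) (s : V)).map (QuotientGroup.mk' M)) := by
  let _ := qa hS
  have hsm : ∀ (x : G) (s : S), (QuotientGroup.mk' M x) • s = sm hS x s := fun _ _ => rfl
  refine ⟨?_, ?_, ?_⟩
  · intro s
    show (N 1 (s : V)).map (QuotientGroup.mk' M) = ⊥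
    rw [eq_bot_iff]
    rintro _ ⟨x, hx, rfl⟩
    refine (QuotientGroup.eq_one_iff _).2 ?_
    rw [hM]
    exact le_iSup (N 1) (s : V) hx
  · intro i s
    exact Subgroup.map_mono (h.mono _ _)
  · intro i
    refine ⟨?_, ?_, ?_⟩
    · rintro s _ ⟨x, hx, rfl⟩
      exact hfix hS ((h.cmp _).fix _ _ hx)
    · rintro g s _ ⟨x, hx, rfl⟩
      obtain ⟨g, rfl⟩ := QuotientGroup.mk'_surjective M g
      rw [hsm]
      obtain ⟨m, hm, h1⟩ := sm_spec hS g s
      have h2 := (h.cmp (i + 1)).eqv (m⁻¹ * g) _ _ hx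
      rw [mul_smul, h1, inv_smul_smul] at h2
      refine ⟨_, h2, ?_⟩
      have h3 : (QuotientGroup.mk' M) m = 1 := (QuotientGroup.eq_one_iff _).2 hm
      simp only [map_mul, map_inv, h3]
      group
    · rintro s t hadj _ ⟨x, hx, rfl⟩ hxt
      obtain ⟨n', hn', h1, h2⟩ := hedge hT hact h hM hS i hadj hx hxt
      rw [← h1]
      exact ⟨n', (h.cmp _).cmp _ _ hadj _ hn' h2, rfl⟩

theorem Hs.quot (hT : T.IsTree)
    (hact : ∀ (g : G) (u v : V), T.Adj u v → T.Adj (g • u) (g • v)) (h : Cf T N)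
    (hh : Hs C T (k + 1) N) (hM : M = ⨆ v, N 1 v) (hS : Tq T M S) :
    @Hs (G ⧸ M) S _ (qa hS) C (T.induce S) k
      (fun i s => (N (i + 1) (s : V)).map (QuotientGroup.mk' M)) := by
  let _ := qa hS
  refine ⟨?_, ?_⟩
  · intro i hi s t hadj x hx hxt
    have h1 : (⁅(N (i + 1 + 1) (s : V)).map (QuotientGroup.mk' M),
        (N (i + 1 + 1) (s : V)).map (QuotientGroup.mk' M)⁆ ⊔
        (N (i + 1) (s : V)).map (QuotientGroup.mk' M)) =
        (⁅N (i + 1 + 1) (s : V), N (i + 1 + 1) (s : V)⁆ ⊔ N (i + 1) (s : V)).map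
          (QuotientGroup.mk' M) := by
      rw [Subgroup.map_sup, Subgroup.map_commutator]
    have h2 : x ∈ (⁅N (i + 1 + 1) (s : V), N (i + 1 + 1) (s : V)⁆ ⊔ N (i + 1) (s : V)).map
          (QuotientGroup.mk' M) := by
      rw [← h1]
      exact hx
    obtain ⟨y, hy, rfl⟩ := h2
    have hy' : y ∈ N (i + 1 + 1) (s : V) :=
      (sup_le (Subgroup.commutator_le_self _) (h.mono _ _)) hy
    obtain ⟨r, hr, h3⟩ := lift_edge hT hact h hM hS hadj ((h.cmp _).fix _ _ hy') hxt
    have h4 : r⁻¹ * y ∈ ⁅N (i + 1 + 1) (s : V), N (i + 1 + 1) (s : V)⁆ ⊔ N (i + 1) (s : V) :=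
      mul_mem (inv_mem ((le_sup_right : N (i + 1) (s : V) ≤ _) (h.mono' i _ hr))) hy
    have h5 := hh.hom (i + 1) (by omega) _ _ hadj _ h4 h3
    refine ⟨r⁻¹ * y, h5, ?_⟩
    rw [map_mul, Cf.mk_inv hM hr, one_mul]
  · intro i hi s g hg
    obtain ⟨g, rfl⟩ := QuotientGroup.mk'_surjective M g
    obtain ⟨y, hy1, hy2⟩ := lift_fix hS (x := g) (s := s) hg
    have h1 := (hh.step (i + 1) (by omega) _ y hy2).map M
      ((h.mono _ _).trans le_sup_left) (by
        intro x hx hx'
        refine h.mono' i _ (hst hT hact h hM hx ?_)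
        have h2 : N (i + 1 + 1) (s : V) ⊔ Subgroup.zpowers y ≤ MulAction.stabilizer G (s : V) :=
          sup_le (h.le_stab _ _) (by rw [Subgroup.zpowers_le]; exact hy2)
        exact h2 hx')
    rw [Subgroup.map_sup, MonoidHom.map_zpowers, hy1] at h1
    exact h1

theorem Ed.quot (hT : T.IsTree)
    (hact : ∀ (g : G) (u v : V), T.Adj u v → T.Adj (g • u) (g • v)) (h : Cf T N)
    (he : Ed C T (k + 1) N) (hM : M = ⨆ v, N 1 v) (hS : Tq T M S) :
    @Ed (G ⧸ M) S _ (qa hS) C (T.induce S) k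
      (fun i s => (N (i + 1) (s : V)).map (QuotientGroup.mk' M)) := by
  let _ := qa hS
  refine ⟨?_, ?_⟩
  · intro s t hadj g hgs hgt
    obtain ⟨g, rfl⟩ := QuotientGroup.mk'_surjective M g
    obtain ⟨y, hy1, hy2⟩ := lift_fix hS (x := g) (s := s) hgs
    have hyt : sm hS y t = t := by
      have : (QuotientGroup.mk' M y) • t = t := by rw [hy1]; exact hgt
      exact this
    obtain ⟨r, hr, h3⟩ := lift_edge hT hact h hM hS hadj hy2 hyt
    have h4 : (r⁻¹ * y) • (s : V) = s := by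
      have h5 := (h.cmp 1).fix _ _ hr
      rw [mul_smul, hy2, inv_smul_eq_iff, h5]
    have h5 := he.edge _ _ hadj _ h4 h3
    refine ⟨r⁻¹ * y, h5, ?_⟩
    rw [map_mul, hy1, Cf.mk_inv hM hr, one_mul]
  · intro s
    have h1 := (he.top s).map M (h.le_stab _ _) (by
        intro x hx hx'
        exact h.mono' k _ (hst hT hact h hM hx hx'))
    have h2 : (MulAction.stabilizer G (s : V)).map (QuotientGroup.mk' M) =
        MulAction.stabilizer (G ⧸ M) s := by
      ext g
      constructor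
      · rintro ⟨x, hx, rfl⟩
        exact hfix hS hx
      · intro hg
        obtain ⟨g, rfl⟩ := QuotientGroup.mk'_surjective M g
        obtain ⟨y, hy1, hy2⟩ := lift_fix hS (x := g) (s := s) hg
        exact ⟨y, hy2, hy1⟩
    rw [h2] at h1
    exact h1

/-- the images of the groups at the vertices of a transversal generate the image of the group generated
by all of them -/
theorem Cf.sup (h : Cf T N) (hS : Tq T M S) (i : ℕ) :
    (⨆ s : S, (N i (s : V)).map (QuotientGroup.mk' M)) =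
      (⨆ v, N i v).map (QuotientGroup.mk' M) := by
  rw [Subgroup.map_iSup]
  apply le_antisymm
  · exact iSup_le fun s => le_iSup (fun v => (N i v).map (QuotientGroup.mk' M)) (s : V)
  · refine iSup_le fun v => ?_
    rintro _ ⟨x, hx, rfl⟩
    obtain ⟨m, hm, s, hs, hv⟩ := hS.cover v
    have h1 := (h.cmp i).eqv m⁻¹ _ _ hx
    rw [hv, inv_smul_smul, inv_inv] at h1
    have h2 : (QuotientGroup.mk' M) (m⁻¹ * x * m) = (QuotientGroup.mk' M) x := by
      have h3 : (QuotientGroup.mk' M) m = 1 := (QuotientGroup.eq_one_iff _).2 hm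
      simp only [map_mul, map_inv, h3]
      group
    rw [← h2]
    exact le_iSup (fun s : S => (N i (s : V)).map (QuotientGroup.mk' M)) ⟨s, hs⟩ ⟨_, h1, rfl⟩

end quot

end

theorem C_of_eq {G : Type} [Group G] {A B : Subgroup G} [hA : A.Normal] [hB : B.Normal] (h : A = B)
    (hC : C (G ⧸ A)) : C (G ⧸ B) := by
  subst h
  exact hC

/-- **compatible series, relative form** -/
theorem relative (hC : ClosedE C) (hM : ∀ (G : Type) [Group G], derivedSeries G 2 = ⊥ → C G) (k : ℕ) :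
    ∀ (G V : Type) [Group G] [MulAction G V] (T : SimpleGraph V), T.IsTree →
    (∀ (g : G) (u v : V), T.Adj u v → T.Adj (g • u) (g • v)) → ∀ N : ℕ → V → Subgroup G,
    Cf T N → Hs C T k N → ∀ [hN : (⨆ v, N k v).Normal], C (G ⧸ ⨆ v, N k v) → C G := by
  induction k with
  | zero =>
    intro G V _ _ T hT hact N h hh hN hQ
    have h1 : (⨆ v, N 0 v) = (⊥ : Subgroup G) := by
      rw [eq_bot_iff]
      exact iSup_le fun v => by rw [h.zero]
    have h2 : C (G ⧸ (⊥ : Subgroup G)) := C_of_eq h1 hQ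
    exact C_equiv hC.base (QuotientGroup.quotientBot (G := G)).symm h2
  | succ k ih =>
    intro G V _ _ T hT hact N h hh hN hQ
    obtain ⟨M, hMd⟩ : ∃ M, M = ⨆ v, N 1 v := ⟨_, rfl⟩
    have hMn : M.Normal := by
      rw [hMd]
      exact (h.cmp 1).normal
    obtain ⟨S, hS'⟩ := Tv.exists (R := N 1) hT
    have hS : Tq T M S := by
      rw [hMd]
      exact (h.cmp 1).tq hT hact hS'
    have hSb : ∀ v, Sb M v = N 1 v := by
      intro v
      apply le_antisymm
      · intro x hx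
        have h1 : x ∈ ⨆ v, N 1 v := hMd ▸ hx.2
        exact (h.cmp 1).stab hT hact h1 hx.1
      · intro x hx
        exact ⟨(h.cmp 1).fix _ _ hx, by rw [hMd]; exact le_iSup (N 1) v hx⟩
    refine hcrit hC hM hT hact M ?_ ?_ ?_
    · let _ := qa hS
      have hsup := h.sup hS (k + 1)
      have hMK : M ≤ ⨆ v, N (k + 1) v := by
        rw [hMd]
        exact iSup_le fun v => (h.mono' k v).trans (le_iSup (N (k + 1)) v)
      have hn1 : ((⨆ v, N (k + 1) v).map (QuotientGroup.mk' M)).Normal :=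
        Subgroup.Normal.map hN _ (QuotientGroup.mk'_surjective _)
      have hn2 : (⨆ s : S, (N (k + 1) (s : V)).map (QuotientGroup.mk' M)).Normal := by
        rw [hsup]
        exact hn1
      refine ih (G ⧸ M) S (T.induce S) (hS.isTree hT) ?_ _ (h.quot hT hact hMd hS)
        (hh.quot hT hact h hMd hS) (hN := hn2) ?_
      · intro q s t hst
        obtain ⟨g, rfl⟩ := QuotientGroup.mk_surjective q
        exact sm_adj hact hS g s t hst
      · refine C_of_eq hsup.symm ?_
        exact C_equiv hC.base (QuotientGroup.quotientQuotientEquivQuotient M _ hMK) hQ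
    · intro v u huv x hx hx' hc
      rw [hSb] at hx hx' hc
      have h1 := hh.hom 0 (by omega) v u huv x ((le_sup_left : _ ≤ _ ⊔ N 0 v) hc)
        ((h.cmp 1).fix _ _ hx')
      rwa [h.zero, Subgroup.mem_bot] at h1
    · intro v g hg
      rw [hSb]
      have h1 := hh.step 0 (by omega) v g hg
      rw [h.zero] at h1
      exact h1.bot hC

/-- **the quotient by a family which contains the edge groups** -/
theorem quot_class (hC : ClosedE C) {G V : Type} [Group G] [MulAction G V] {T : SimpleGraph V}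
    (hT : T.IsTree) (hact : ∀ (g : G) (u v : V), T.Adj u v → T.Adj (g • u) (g • v))
    {N : V → Subgroup G} (hN : Cmp T N)
    (he : ∀ u v, T.Adj u v → ∀ g : G, g • u = u → g • v = v → g ∈ N u)
    (ht : ∀ v, CQ C (MulAction.stabilizer G v) (N v)) [hn : (⨆ v, N v).Normal] :
    C (G ⧸ ⨆ v, N v) := by
  obtain ⟨N', hN'⟩ : ∃ N' : ℕ → V → Subgroup G, N' = fun i v => if i = 0 then ⊥ else N v := ⟨_, rfl⟩
  have h0 : ∀ v, N' 0 v = ⊥ := fun v => by rw [hN']; rfl
  have h1 : ∀ i v, N' (i + 1) v = N v := fun i v => by rw [hN']; rfl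
  have hcf : Cf T N' := by
    refine ⟨h0, fun i v => ?_, fun i => ?_⟩
    · cases i with
      | zero => rw [h0]; exact bot_le
      | succ i => rw [h1, h1]
    · cases i with
      | zero =>
        refine ⟨?_, ?_, ?_⟩
        · intro v n hn
          rw [h0, Subgroup.mem_bot] at hn
          rw [hn, one_smul]
        · intro g v n hn
          rw [h0, Subgroup.mem_bot] at hn
          rw [h0, Subgroup.mem_bot, hn]
          group
        · intro u v _ n hn _
          rw [h0, Subgroup.mem_bot] at hn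
          rw [h0, Subgroup.mem_bot, hn]
      | succ i =>
        have : N' (i + 1) = N := funext fun v => h1 i v
        rw [this]
        exact hN
  have hed : Ed C T (0 + 1) N' := ⟨fun u v huv g hgu hgv => by rw [h1]; exact he u v huv g hgu hgv,
    fun v => by rw [h1]; exact ht v⟩
  obtain ⟨M, hMd⟩ : ∃ M, M = ⨆ v, N v := ⟨_, rfl⟩
  have hMn : M.Normal := by
    rw [hMd]
    exact hN.normal
  have hMd' : M = ⨆ v, N' 1 v := by
    rw [hMd]
    exact iSup_congr fun v => (h1 0 v).symm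
  obtain ⟨S, hS'⟩ := Tv.exists (R := N) hT
  have hS : Tq T M S := by
    rw [hMd]
    exact hN.tq hT hact hS'
  refine C_of_eq hMd ?_
  let _ := qa hS
  have hq := hed.quot hT hact hcf hMd' hS
  have hc := hcf.quot hT hact hMd' hS
  refine crit hC (hS.isTree hT) ?_ (1 : G ⧸ M →* Multiplicative ℤ) hC.base.int ?_ ?_
  · intro q s t hst
    obtain ⟨g, rfl⟩ := QuotientGroup.mk_surjective q
    exact sm_adj hact hS g s t hst
  · intro s t hst g hgs hgt _
    have := hq.edge s t hst g hgs hgt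
    rwa [hc.zero, Subgroup.mem_bot] at this
  · intro s g hg
    have h1 : C (MulAction.stabilizer (G ⧸ M) s) := by
      have h2 := hq.top s
      rw [hc.zero] at h2
      exact h2.bot hC
    refine C_le hC.base (sup_le inf_le_left ?_) h1
    rw [Subgroup.zpowers_le]
    exact hg

end Pool.Agent.Zk85.CS
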